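import Mathlib
import Pool.Agent.H238R2.HY.Part

set_option autoImplicit false

/-!
# Partition of a degenerate graph into types, and the colouring inside the types
-/

namespace Pool.Agent.TH104.HY

open Finset Pool.Agent.Helper635.LLL Pool.Agent.H238R2.HY

/-- a degeneracy ordering -/
theorem degen_order {V : Type} [Fintype V] (G : SimpleGraph V) (s : ℕ)
    (hdeg : ∀ X : Finset V, X.Nonempty → ∃ v ∈ X, ∃ S : Finset V,
      (∀ u ∈ X, G.Adj v u → u ∈ S) ∧ S.card ≤ s) :
    ∃ r : V → ℕ, Function.Injective r ∧
      ∀ v, ∃ S : Finset V, (∀ u, G.Adj v u → r u < r v → u ∈ S) ∧ S.card ≤ s := by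
  classical
  have key : ∀ n : ℕ, ∀ X : Finset V, X.card = n → ∃ r : V → ℕ,
      (∀ u ∈ X, r u < n) ∧ (∀ u ∈ X, ∀ v ∈ X, r u = r v → u = v) ∧
      ∀ v ∈ X, ∃ S : Finset V, (∀ u ∈ X, G.Adj v u → r u < r v → u ∈ S) ∧ S.card ≤ s := by
    intro n
    induction n with
    | zero =>
      intro X hX
      rw [Finset.card_eq_zero] at hX
      subst hX
      exact ⟨fun _ => 0, by simp, by simp, by simp⟩
    | succ n ih =>
      intro X hX
      have hne : X.Nonempty := by rw [← Finset.card_pos]; omega
      obtain ⟨x, hx, S, hS1, hS2⟩ := hdeg X hne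
      obtain ⟨r, hr1, hr2, hr3⟩ := ih (X.erase x) (by rw [Finset.card_erase_of_mem hx]; omega)
      have hr : ∀ u, u ≠ x → Function.update r x n u = r u := fun u hu =>
        Function.update_of_ne hu _ _
      have hrx : Function.update r x n x = n := Function.update_self _ _ _
      refine ⟨Function.update r x n, ?_, ?_, ?_⟩
      · intro u hu
        by_cases hux : u = x
        · subst hux; rw [hrx]; omega
        · rw [hr u hux]
          have := hr1 u (Finset.mem_erase.2 ⟨hux, hu⟩)
          omega
      · intro u hu v hv h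
        by_cases hux : u = x
        · by_cases hvx : v = x
          · rw [hux, hvx]
          · exfalso
            rw [hux, hrx, hr v hvx] at h
            have := hr1 v (Finset.mem_erase.2 ⟨hvx, hv⟩)
            omega
        · by_cases hvx : v = x
          · exfalso
            rw [hvx, hrx, hr u hux] at h
            have := hr1 u (Finset.mem_erase.2 ⟨hux, hu⟩)
            omega
          · rw [hr u hux, hr v hvx] at h
            exact hr2 u (Finset.mem_erase.2 ⟨hux, hu⟩) v (Finset.mem_erase.2 ⟨hvx, hv⟩) h
      · intro v hv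
        by_cases hvx : v = x
        · subst hvx
          exact ⟨S, fun u hu huv _ => hS1 u hu huv, hS2⟩
        · obtain ⟨S', h1, h2⟩ := hr3 v (Finset.mem_erase.2 ⟨hvx, hv⟩)
          refine ⟨S', ?_, h2⟩
          intro u hu huv hlt
          by_cases hux : u = x
          · exfalso
            rw [hux, hrx, hr v hvx] at hlt
            have := hr1 v (Finset.mem_erase.2 ⟨hvx, hv⟩)
            omega
          · rw [hr u hux, hr v hvx] at hlt
            exact h1 u (Finset.mem_erase.2 ⟨hux, hu⟩) huv hlt
  obtain ⟨r, _, hr2, hr3⟩ := key _ univ rfl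
  refine ⟨r, fun u v h => hr2 u (mem_univ _) v (mem_univ _) h, ?_⟩
  intro v
  obtain ⟨S, h1, h2⟩ := hr3 v (mem_univ _)
  exact ⟨S, fun u huv hlt => h1 u (mem_univ _) huv hlt, h2⟩

/-- greedy colouring inside the types along the ordering -/
theorem order_colour {V : Type} [Fintype V] (G : SimpleGraph V) (r : V → ℕ)
    (hr : Function.Injective r) (t : V → ℕ) (B : V → Finset V)
    (hB : ∀ v u, G.Adj v u → r u < r v → u ∈ B v) (k : ℕ)
    (hk : ∀ v y, ((B v).filter (fun u => t u = y)).card < k) :
    ∃ s : V → ℕ, (∀ v, s v < k) ∧ ∀ u v, G.Adj u v → t u = t v → s u ≠ s v := by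
  classical
  have key : ∀ n : ℕ, ∃ s : V → ℕ, (∀ v, s v < k) ∧
      ∀ u v, r u < n → r v < n → G.Adj u v → t u = t v → s u ≠ s v := by
    intro n
    induction n with
    | zero =>
      by_cases hV : Nonempty V
      · obtain ⟨v0⟩ := hV
        have := hk v0 0
        exact ⟨fun _ => 0, fun _ => lt_of_le_of_lt (Nat.zero_le _) this, by intro u v h; omega⟩
      · exact ⟨fun _ => 0, fun v => absurd ⟨v⟩ hV, by intro u v h; omega⟩
    | succ n ih =>
      obtain ⟨s, hs1, hs2⟩ := ih
      by_cases hx : ∃ x, r x = n
      · obtain ⟨x, hx⟩ := hx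
        have hcard : (((B x).filter (fun u => t u = t x)).image s).card < (range k).card := by
          refine lt_of_le_of_lt Finset.card_image_le ?_
          rw [card_range]
          exact hk x _
        obtain ⟨c, hc1, hc2⟩ := Finset.exists_mem_notMem_of_card_lt_card hcard
        rw [mem_range] at hc1
        have hnx : ∀ u, r u < n + 1 → u ≠ x → r u < n := by
          intro u hu hux
          have : r u ≠ n := fun h => hux (hr (h.trans hx.symm))
          omega
        have hmain : ∀ u, r u < n + 1 → G.Adj x u → t x = t u → c ≠ s u := by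
          intro u hu hadj htu h
          have hux : u ≠ x := (G.ne_of_adj hadj).symm
          have hlt := hnx u hu hux
          exact hc2 (mem_image.2 ⟨u, mem_filter.2 ⟨hB x u hadj (by omega), htu.symm⟩, h.symm⟩)
        refine ⟨Function.update s x c, ?_, ?_⟩
        · intro v
          by_cases h : v = x
          · subst h; rw [Function.update_self]; omega
          · rw [Function.update_of_ne h]; exact hs1 v
        · intro u v hu hv huv htt
          by_cases hux : u = x
          · have hvx : v ≠ x := by rintro rfl; exact G.ne_of_adj huv hux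
            rw [hux, Function.update_self, Function.update_of_ne hvx]
            exact hmain v hv (hux ▸ huv) (hux ▸ htt)
          · by_cases hvx : v = x
            · rw [hvx, Function.update_self, Function.update_of_ne hux]
              exact (hmain u hu (hvx ▸ huv.symm) (hvx ▸ htt.symm)).symm
            · rw [Function.update_of_ne hux, Function.update_of_ne hvx]
              exact hs2 u v (hnx u hu hux) (hnx v hv hvx) huv htt
      · refine ⟨s, hs1, ?_⟩
        intro u v hu hv
        have h1 : r u ≠ n := fun h => hx ⟨u, h⟩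
        have h2 : r v ≠ n := fun h => hx ⟨v, h⟩
        exact hs2 u v (by omega) (by omega)
  obtain ⟨s, h1, h2⟩ := key ((univ.sup r) + 1)
  refine ⟨s, h1, fun u v => h2 u v ?_ ?_⟩
  · exact Nat.lt_succ_of_le (Finset.le_sup (mem_univ u))
  · exact Nat.lt_succ_of_le (Finset.le_sup (mem_univ v))

/-- balanced partition for the neighbourhoods and for given subsets of them -/
theorem partition2 {V : Type} [Fintype V] (G : SimpleGraph V) [DecidableRel G.Adj]
    (K D s : ℕ) (hK : 1 ≤ K) (hD1 : 1 ≤ D) (hsD : s ≤ D) (hD : ∀ v, G.degree v ≤ D)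
    (B : V → Finset V) (hBN : ∀ v, B v ⊆ G.neighborFinset v) (hB : ∀ v, (B v).card ≤ s)
    (x : ℝ) (hx : 0 ≤ x)
    (hx1 : x ≤ 1) (h4 : 4 * (2 * K * Real.exp (-(x ^ 2 * s / (3 * K)))) * (D * D : ℕ) ≤ 1) :
    ∃ t : V → ℕ, (∀ v, t v < K) ∧
      (∀ v y, ((G.neighborFinset v).filter (fun u => t u = y)).card ≤ ⌊(1 + x) * D / K⌋₊) ∧
      (∀ v y, ((B v).filter (fun u => t u = y)).card ≤ ⌊(1 + x) * s / K⌋₊) := by
  classical
  have : Nonempty (Fin K) := ⟨⟨0, hK⟩⟩
  have hcardpos : 0 < Fintype.card (V → Fin K) := Fintype.card_pos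
  have hKpos : (0 : ℝ) < K := by exact_mod_cast hK
  set w := ⌊(1 + x) * D / K⌋₊ with hw
  set k := ⌊(1 + x) * s / K⌋₊ with hk
  have hm : (1 + x) * D / K ≤ ((w + 1 : ℕ) : ℝ) := by
    push_cast; exact (Nat.lt_floor_add_one _).le
  have hm2 : (1 + x) * s / K ≤ ((k + 1 : ℕ) : ℝ) := by
    push_cast; exact (Nat.lt_floor_add_one _).le
  have hexp : Real.exp (-(x ^ 2 * D / (3 * K))) ≤ Real.exp (-(x ^ 2 * s / (3 * K))) := by
    apply Real.exp_le_exp.2
    have : (s : ℝ) ≤ D := by exact_mod_cast hsD
    have h2 : x ^ 2 * s / (3 * K) ≤ x ^ 2 * D / (3 * K) := by gcongr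
    linarith
  set Bad : V → Fin K → (V → Fin K) → Prop := fun v y ω =>
    w + 1 ≤ ((G.neighborFinset v).filter (fun u => ω u = y)).card ∨
    k + 1 ≤ ((B v).filter (fun u => ω u = y)).card with hBad
  obtain ⟨ω, hω⟩ := lll (ι := V) univ
    (fun v (ω : V → Fin K) => ∃ y : Fin K, Bad v y ω) (fun v => G.neighborFinset v)
    (by
      intro v _ ω ω' hag hbad
      obtain ⟨y, hy⟩ := hbad
      refine ⟨y, ?_⟩
      rcases hy with hy | hy
      · left
        refine le_trans hy (Finset.card_le_card ?_)
        intro u hu
        rw [mem_filter] at hu ⊢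
        exact ⟨hu.1, by rw [← hag u hu.1]; exact hu.2⟩
      · right
        refine le_trans hy (Finset.card_le_card ?_)
        intro u hu
        rw [mem_filter] at hu ⊢
        exact ⟨hu.1, by rw [← hag u (hBN v hu.1)]; exact hu.2⟩)
    (2 * K * Real.exp (-(x ^ 2 * s / (3 * K)))) (D * D) (by positivity)
    (by
      intro v _
      have hsub : ev (fun ω : V → Fin K => ∃ y : Fin K, Bad v y ω) ⊆
          (Finset.univ : Finset (Fin K)).biUnion
            (fun y => ev (fun ω : V → Fin K => w + 1 ≤ ((G.neighborFinset v).filter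
              (fun u => ω u = y)).card) ∪ ev (fun ω : V → Fin K => k + 1 ≤ ((B v).filter
              (fun u => ω u = y)).card)) := by
        intro ω hω
        rw [mem_ev] at hω
        obtain ⟨j, hj⟩ := hω
        rw [Finset.mem_biUnion]
        refine ⟨j, Finset.mem_univ _, ?_⟩
        rw [mem_union]
        rcases hj with hj | hj
        · left; exact mem_ev.mpr hj
        · right; exact mem_ev.mpr hj
      have h1 := (Finset.card_le_card hsub).trans Finset.card_biUnion_le
      have h2 : (cnt (fun ω : V → Fin K => ∃ y : Fin K, Bad v y ω) : ℝ) ≤ ∑ y : Fin K,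
          ((cnt (fun ω : V → Fin K => w + 1 ≤ ((G.neighborFinset v).filter
              (fun u => ω u = y)).card) : ℝ) + (cnt (fun ω : V → Fin K => k + 1 ≤
              ((B v).filter (fun u => ω u = y)).card) : ℝ)) := by
        have h3 : (cnt (fun ω : V → Fin K => ∃ y : Fin K, Bad v y ω)) ≤ ∑ y : Fin K,
          ((cnt (fun ω : V → Fin K => w + 1 ≤ ((G.neighborFinset v).filter
              (fun u => ω u = y)).card)) + (cnt (fun ω : V → Fin K => k + 1 ≤
              ((B v).filter (fun u => ω u = y)).card))) := by
          refine h1.trans (Finset.sum_le_sum ?_)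
          intro y _
          exact Finset.card_union_le _ _
        exact_mod_cast h3
      refine h2.trans ?_
      have h5 : ∀ y ∈ (univ : Finset (Fin K)),
          ((cnt (fun ω : V → Fin K => w + 1 ≤ ((G.neighborFinset v).filter
              (fun u => ω u = y)).card) : ℝ) + (cnt (fun ω : V → Fin K => k + 1 ≤
              ((B v).filter (fun u => ω u = y)).card) : ℝ)) ≤
            2 * (Real.exp (-(x ^ 2 * s / (3 * K))) * Fintype.card (V → Fin K)) := by
        intro y _
        have h6 := tail K D hK (G.neighborFinset v) (by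
          rw [SimpleGraph.card_neighborFinset_eq_degree]; exact hD v) y x hx hx1 (w + 1) hm
        have h7 := tail K s hK (B v) (hB v) y x hx hx1 (k + 1) hm2
        have h8 : Real.exp (-(x ^ 2 * D / (3 * K))) * Fintype.card (V → Fin K) ≤
            Real.exp (-(x ^ 2 * s / (3 * K))) * Fintype.card (V → Fin K) :=
          mul_le_mul_of_nonneg_right hexp (by positivity)
        linarith
      refine (Finset.sum_le_sum h5).trans ?_
      rw [Finset.sum_const, Finset.card_univ, Fintype.card_fin, nsmul_eq_mul]
      exact le_of_eq (by ring))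
    (by
      intro v _
      have hsub : univ.filter (fun j => ¬ Disjoint (G.neighborFinset v) (G.neighborFinset j)) ⊆
          (G.neighborFinset v).biUnion (fun u => G.neighborFinset u) := by
        intro j hj
        rw [mem_filter, Finset.not_disjoint_iff] at hj
        obtain ⟨u, hu1, hu2⟩ := hj.2
        rw [mem_biUnion]
        refine ⟨u, hu1, ?_⟩
        rw [SimpleGraph.mem_neighborFinset] at hu2 ⊢
        exact hu2.symm
      refine (Finset.card_le_card hsub).trans (Finset.card_biUnion_le.trans ?_)
      have hs : ∑ u ∈ G.neighborFinset v, (G.neighborFinset u).card ≤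
          ∑ _u ∈ G.neighborFinset v, D :=
        Finset.sum_le_sum (fun u _ => by
          rw [SimpleGraph.card_neighborFinset_eq_degree]; exact hD u)
      refine hs.trans ?_
      rw [Finset.sum_const, smul_eq_mul, SimpleGraph.card_neighborFinset_eq_degree]
      exact Nat.mul_le_mul_right _ (hD v))
    (by exact_mod_cast h4) (Nat.one_le_iff_ne_zero.2 (by positivity)) hcardpos
  have hfil : ∀ (S : Finset V) (y : ℕ) (M : ℕ),
      (∀ y' : Fin K, (S.filter (fun u => ω u = y')).card ≤ M) →
      (S.filter (fun u => (ω u : ℕ) = y)).card ≤ M := by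
    intro S y M h
    by_cases hy : y < K
    · have h3 : S.filter (fun u => (ω u : ℕ) = y) = S.filter (fun u => ω u = ⟨y, hy⟩) := by
        apply Finset.filter_congr
        intro u _
        rw [Fin.ext_iff]
      rw [h3]
      exact h ⟨y, hy⟩
    · have h3 : S.filter (fun u => (ω u : ℕ) = y) = ∅ := by
        apply Finset.filter_eq_empty_iff.2
        intro u _ h
        exact hy (by rw [← h]; exact (ω u).2)
      rw [h3]; simp
  refine ⟨fun v => (ω v : ℕ), fun v => (ω v).2, ?_, ?_⟩
  · intro v y
    apply hfil
    intro y'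
    have h1 := hω v (mem_univ v)
    rw [not_exists] at h1
    have h2 := h1 y'
    simp only [hBad, not_or] at h2
    omega
  · intro v y
    apply hfil
    intro y'
    have h1 := hω v (mem_univ v)
    rw [not_exists] at h1
    have h2 := h1 y'
    simp only [hBad, not_or] at h2
    omega

end Pool.Agent.TH104.HY
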