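import Mathlib
import Pool.Agent.H238R2.HY.Struct

set_option autoImplicit false

/-!
# Linear (p,1)-total labellings from a partition into types and an arrangement of windows
-/

namespace Pool.Agent.TH104.HY

open Finset Pool.Agent.H238R2.HY

variable {V : Type} [Fintype V]

/-- (p,1)-total labelling of span `l` -/
def TotLab (G : SimpleGraph V) (p l : ℕ) : Prop :=
  ∃ (fV : V → ℕ) (fE : Sym2 V → ℕ),
    (∀ v, fV v ≤ l) ∧ (∀ e ∈ G.edgeSet, fE e ≤ l) ∧
    (∀ u v, G.Adj u v → fV u ≠ fV v) ∧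
    (∀ u v w, G.Adj u v → G.Adj u w → v ≠ w → fE s(u, v) ≠ fE s(u, w)) ∧
    (∀ u v, G.Adj u v → (p : ℤ) ≤ |(fV u : ℤ) - (fE s(u, v) : ℤ)|)

/-- the edges whose window starts at `n` -/
def win (G : SimpleGraph V) (t : V → ℕ) (pos : ℕ → ℕ → ℕ) (hs : ∀ a b, pos a b = pos b a)
    (n : ℕ) : SimpleGraph V where
  Adj u v := G.Adj u v ∧ pos (t u) (t v) = n
  symm := ⟨fun _ _ h => ⟨h.1.symm, by rw [hs]; exact h.2⟩⟩
  loopless := ⟨fun u h => G.loopless.irrefl u h.1⟩

theorem structA (G : SimpleGraph V) [DecidableRel G.Adj] (K w k p l : ℕ)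
    (t : V → ℕ) (htK : ∀ v, t v < K)
    (hw : ∀ v y, ((G.neighborFinset v).filter (fun u => t u = y)).card ≤ w)
    (s : V → ℕ) (hs : ∀ v, s v < k) (hs2 : ∀ u v, G.Adj u v → t u = t v → s u ≠ s v)
    (pos : ℕ → ℕ → ℕ) (hsym : ∀ a b, pos a b = pos b a)
    (hsep : ∀ a < K, ∀ b < K, ∀ b' < K, b ≠ b' →
      pos a b + (w + 1) ≤ pos a b' ∨ pos a b' + (w + 1) ≤ pos a b)
    (x : ℕ → ℕ) (hx : ∀ a < K, ∀ b < K, a ≠ b → x a + k ≤ x b ∨ x b + k ≤ x a)
    (hxl : ∀ a < K, x a + k ≤ l + 1)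
    (hpl : ∀ a < K, ∀ b < K, pos a b + (w + 1) ≤ l + 1)
    (hfar : ∀ a < K, ∀ b < K, x a + k + p ≤ pos a b + 1 ∨ pos a b + w + p ≤ x a) :
    TotLab G p l := by
  classical
  have hinj : ∀ u v v', G.Adj u v → G.Adj u v' → pos (t u) (t v) = pos (t u) (t v') →
      t v = t v' := by
    intro u v v' _ _ h
    by_contra hne
    rcases hsep _ (htK u) _ (htK v) _ (htK v') hne with h1 | h1 <;> omega
  have hblk : ∀ n, ∃ c : V → V → ℕ, (∀ u v, c u v = c v u) ∧
      (∀ u v, (win G t pos hsym n).Adj u v → c u v ≤ w) ∧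
      ∀ u v v', (win G t pos hsym n).Adj u v → (win G t pos hsym n).Adj u v' → v ≠ v' →
        c u v ≠ c u v' := by
    intro n
    apply vizing
    intro v
    rw [← SimpleGraph.card_neighborFinset_eq_degree]
    rcases ((win G t pos hsym n).neighborFinset v).eq_empty_or_nonempty with h0 | ⟨u0, hu0⟩
    · rw [h0]; simp
    · rw [SimpleGraph.mem_neighborFinset] at hu0
      refine le_trans (Finset.card_le_card ?_) (hw v (t u0))
      intro u hu
      rw [SimpleGraph.mem_neighborFinset] at hu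
      rw [mem_filter, SimpleGraph.mem_neighborFinset]
      exact ⟨hu.1, hinj v u u0 hu.1 hu0.1 (hu.2.trans hu0.2.symm)⟩
  choose c hc1 hc2 hc3 using hblk
  let eL : V → V → ℕ := fun u v => pos (t u) (t v) + c (pos (t u) (t v)) u v
  have hsymm : ∀ u v, eL u v = eL v u := by
    intro u v
    simp only [eL]
    rw [hsym (t v) (t u), hc1 (pos (t u) (t v)) u v]
  let fE : Sym2 V → ℕ := fun e => Sym2.lift ⟨eL, hsymm⟩ e
  have hfE : ∀ u v, fE s(u, v) = eL u v := fun u v => Sym2.lift_mk _ _ _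
  have hc : ∀ u v, G.Adj u v → c (pos (t u) (t v)) u v ≤ w := fun u v h =>
    hc2 _ u v ⟨h, rfl⟩
  refine ⟨fun v => x (t v) + s v, fE, ?_, ?_, ?_, ?_, ?_⟩
  · intro v
    have h1 := hxl _ (htK v)
    have h2 := hs v
    simp only
    omega
  · intro e he
    induction e using Sym2.ind with
    | _ u v =>
      have huv : G.Adj u v := he
      rw [hfE]
      have h1 := hpl _ (htK u) _ (htK v)
      have h2 := hc u v huv
      simp only [eL]
      omega
  · intro u v huv h
    simp only at h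
    have h3 := hs u
    have h4 := hs v
    by_cases htt : t u = t v
    · rw [htt] at h
      exact hs2 u v huv htt (by omega)
    · rcases hx _ (htK u) _ (htK v) htt with h5 | h5 <;> omega
  · intro u v v' huv huv' hne h
    rw [hfE, hfE] at h
    simp only [eL] at h
    have h3 := hc u v huv
    have h4 := hc u v' huv'
    by_cases hp : pos (t u) (t v) = pos (t u) (t v')
    · rw [← hp] at h
      exact hc3 (pos (t u) (t v)) u v v' ⟨huv, rfl⟩ ⟨huv', hp.symm⟩ hne (by omega)
    · have htt : t v ≠ t v' := fun h' => hp (by rw [h'])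
      rcases hsep _ (htK u) _ (htK v) _ (htK v') htt with h5 | h5 <;> omega
  · intro u v huv
    rw [hfE]
    simp only [eL]
    have h2 := hc u v huv
    have h3 := hs u
    rcases hfar _ (htK u) _ (htK v) with h | h
    · rw [le_abs]; right; push_cast; omega
    · rw [le_abs]; left; push_cast; omega

end Pool.Agent.TH104.HY
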