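import Mathlib
import Pool.Agent.TH104.HY.A

set_option autoImplicit false

/-!
# The arrangement of the windows
-/

namespace Pool.Agent.TH104.HY

/-- the window of an edge between the low type `i` and the high type `j` -/
def Nw (m q i j : ℤ) : ℤ :=
  if m - 1 + i - j < q then 2 * m - 1 + i - j
  else if 2 * m - 2 - q < m - 1 + i - j then i - j - 1 else m - 1 + i - j

/-- the window of an edge between two low types -/
def Mw (m q W l B i j : ℤ) : ℤ :=
  if i + j < q then 2 * m + i + j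
  else if 2 * m - 2 - q < i + j then i + j
  else if B + (m + i + j + 1) * W ≤ l + 1 then m + i + j else i + j - m

lemma Mw_comm (m q W l B i j : ℤ) : Mw m q W l B i j = Mw m q W l B j i := by
  unfold Mw
  have e1 : i + j = j + i := add_comm i j
  have e2 : m + i + j = m + j + i := by ring
  have e3 : 2 * m + i + j = 2 * m + j + i := by ring
  rw [e1, e2, e3]

lemma Nw_add {m q i j : ℤ} (hq : 0 ≤ q) (hm : 2 * q + 1 ≤ m) (hi0 : 0 ≤ i) (him : i < m)
    (hj0 : 0 ≤ j) (hjm : j < m) : Nw m q i j + Nw m q j i = 2 * m - 2 := by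
  unfold Nw
  split_ifs <;> omega

lemma Nw_inj {m q i j j' : ℤ} (hq : 0 ≤ q) (hm : 2 * q + 1 ≤ m) (hi0 : 0 ≤ i) (him : i < m)
    (hj0 : 0 ≤ j) (hjm : j < m) (hj0' : 0 ≤ j') (hjm' : j' < m)
    (h : Nw m q i j = Nw m q i j') : j = j' := by
  unfold Nw at h
  split_ifs at h <;> omega

lemma Nw_lower {m q i j : ℤ} (hq : 0 ≤ q) (hm : 2 * q + 1 ≤ m) (hi0 : 0 ≤ i) (him : i < m)
    (hj0 : 0 ≤ j) (hjm : j < m) :
    q ≤ Nw m q i j ∧ (i ≤ Nw m q i j ∨ m - 1 - q ≤ Nw m q i j) := by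
  unfold Nw
  split_ifs <;> omega

lemma Mw_inj {m q W l B i j j' : ℤ} (hq : 0 ≤ q) (hm : 2 * q + 1 ≤ m) (hi0 : 0 ≤ i) (him : i < m)
    (hj0 : 0 ≤ j) (hjm : j < m) (hj0' : 0 ≤ j') (hjm' : j' < m)
    (h : Mw m q W l B i j = Mw m q W l B i j') : j = j' := by
  unfold Mw at h
  split_ifs at h <;> omega

lemma Mw_Nw {m q W l B i j j' : ℤ} (hq : 0 ≤ q) (hm : 2 * q + 1 ≤ m) (hi0 : 0 ≤ i) (him : i < m)
    (hj0 : 0 ≤ j) (hjm : j < m) (hj0' : 0 ≤ j') (hjm' : j' < m) :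
    Mw m q W l B i j ≠ Nw m q i j' := by
  intro h
  unfold Mw Nw at h
  split_ifs at h <;> omega

/-- lower bound for the labels of the edges between low and high vertices -/
lemma cross_low {m q W k p B i j : ℤ} (hq : 0 ≤ q) (hm : 2 * q + 1 ≤ m) (hi0 : 0 ≤ i)
    (him : i < m) (hj0 : 0 ≤ j) (hjm : j < m) (hk : 0 ≤ k) (hkW : k ≤ W)
    (c1 : p - 1 + (q + 1) * k ≤ B + q * W) (H1 : (m - 1 - q) * k ≤ (m - 1 - 2 * q) * W) :
    p - 1 + (i + 1) * k ≤ B + Nw m q i j * W := by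
  obtain ⟨h1, h2⟩ := Nw_lower hq hm hi0 him hj0 hjm
  set N := Nw m q i j
  have hW : 0 ≤ W := hk.trans hkW
  rcases le_total i q with h | h
  · nlinarith [mul_nonneg (sub_nonneg.2 h1) hW, mul_nonneg (sub_nonneg.2 h) hk]
  · rcases h2 with h2 | h2
    · nlinarith [mul_nonneg (sub_nonneg.2 h2) hW, mul_nonneg (sub_nonneg.2 h) (sub_nonneg.2 hkW)]
    · have h3 : i ≤ m - 1 := by omega
      nlinarith [mul_nonneg (sub_nonneg.2 h2) hW, mul_nonneg (sub_nonneg.2 h3) hk]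

/-- bounds for the labels of the edges between low vertices -/
lemma low_low {m q W k p l B i j : ℤ} (hq : 0 ≤ q) (hm : 2 * q + 1 ≤ m) (hi0 : 0 ≤ i)
    (him : i < m) (hj0 : 0 ≤ j) (hjm : j < m) (hk : 0 ≤ k) (hkW : k ≤ W)
    (c1 : p - 1 + (q + 1) * k ≤ B + q * W) (H1 : (m - 1 - q) * k ≤ (m - 1 - 2 * q) * W)
    (c2 : B + (2 * m + q) * W ≤ l + 1) (c3 : p - 1 + m * k + (2 * m + 1) * W ≤ l + 2) :
    p - 1 + m * k ≤ B + Mw m q W l B i j * W ∧ B + Mw m q W l B i j * W + W ≤ l + 1 := by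
  have hW : 0 ≤ W := hk.trans hkW
  have h5 : p - 1 + m * k ≤ B + (m - 1 - q) * W := by nlinarith
  unfold Mw
  split_ifs with h1 h2 h3
  · have h6 : m - 1 - q ≤ 2 * m + i + j := by omega
    have h7 : 2 * m + i + j + 1 ≤ 2 * m + q := by omega
    constructor
    · nlinarith [mul_nonneg (sub_nonneg.2 h6) hW]
    · nlinarith [mul_nonneg (sub_nonneg.2 h7) hW]
  · have h6 : m - 1 - q ≤ i + j := by omega
    have h7 : i + j + 1 ≤ 2 * m + q := by omega
    constructor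
    · nlinarith [mul_nonneg (sub_nonneg.2 h6) hW]
    · nlinarith [mul_nonneg (sub_nonneg.2 h7) hW]
  · have h6 : m - 1 - q ≤ m + i + j := by omega
    constructor
    · nlinarith [mul_nonneg (sub_nonneg.2 h6) hW]
    · nlinarith
  · push Not at h3
    have h7 : i + j - m + 1 ≤ 2 * m + q := by omega
    constructor
    · nlinarith
    · nlinarith [mul_nonneg (sub_nonneg.2 h7) hW]

lemma win_sep {W B n n' : ℤ} (hW : 0 ≤ W) (h : n ≠ n') :
    B + n * W + W ≤ B + n' * W ∨ B + n' * W + W ≤ B + n * W := by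
  rcases lt_or_gt_of_ne h with h | h
  · left
    have : n + 1 ≤ n' := h
    nlinarith [mul_nonneg (sub_nonneg.2 this) hW]
  · right
    have : n' + 1 ≤ n := h
    nlinarith [mul_nonneg (sub_nonneg.2 this) hW]

end Pool.Agent.TH104.HY
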