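import Mathlib
import Pool.Agent.TH104.HY.B

set_option autoImplicit false

/-!
# Structure theorem: a partition into `2m` types gives a labelling of span `D + 2p - 1`
-/

namespace Pool.Agent.TH104.HY

open Finset Pool.Agent.H238R2.HY

/-- the position of the window of the edges between types `a` and `b` -/
def posZ (m q W l A A' : ℤ) (a b : ℤ) : ℤ :=
  if a < m then
    (if b < m then A + Mw m q W l A a b * W else A + Nw m q a (b - m) * W)
  else
    (if b < m then A + Nw m q b (a - m) * W
      else l + 1 - W - (A' + Mw m q W l A' (a - m) (b - m) * W))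

lemma posZ_comm (m q W l A A' a b : ℤ) : posZ m q W l A A' a b = posZ m q W l A A' b a := by
  unfold posZ
  split_ifs
  · rw [Mw_comm]
  · rfl
  · rfl
  · rw [Mw_comm]

section

variable {m q W k p l A A' : ℤ} (hq : 0 ≤ q) (hm : 2 * q + 1 ≤ m) (hk : 0 ≤ k) (hkW : k ≤ W)
  (hA' : A' = l + 1 - (2 * m - 1) * W - A)

include hq hm hk hkW hA'

lemma posZ_high_cross {a b : ℤ} (ha : m ≤ a) (ha2 : a < 2 * m) (hb0 : 0 ≤ b) (hb : b < m) :
    posZ m q W l A A' a b = l + 1 - W - (A' + Nw m q (a - m) b * W) := by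
  unfold posZ
  rw [if_neg (by omega), if_pos hb]
  have h := Nw_add (m := m) (q := q) (i := a - m) (j := b) hq hm (by omega) (by omega) hb0 hb
  have h2 : Nw m q b (a - m) = 2 * m - 2 - Nw m q (a - m) b := by omega
  rw [h2, hA']
  ring

lemma posZ_sep {a b b' : ℤ} (ha0 : 0 ≤ a) (ha : a < 2 * m) (hb0 : 0 ≤ b) (hb : b < 2 * m)
    (hb0' : 0 ≤ b') (hb' : b' < 2 * m) (hne : b ≠ b') :
    posZ m q W l A A' a b + W ≤ posZ m q W l A A' a b' ∨
      posZ m q W l A A' a b' + W ≤ posZ m q W l A A' a b := by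
  have hW : 0 ≤ W := hk.trans hkW
  by_cases ham : a < m
  · have e : ∀ c : ℤ, posZ m q W l A A' a c =
        A + (if c < m then Mw m q W l A a c else Nw m q a (c - m)) * W := by
      intro c
      unfold posZ
      rw [if_pos ham]
      split_ifs <;> rfl
    rw [e b, e b']
    apply win_sep hW
    split_ifs with h1 h2 h2
    · intro h
      exact hne (Mw_inj hq hm ha0 ham hb0 h1 hb0' h2 h)
    · exact Mw_Nw hq hm ha0 ham hb0 h1 (by omega) (by omega)
    · exact (Mw_Nw hq hm ha0 ham hb0' h2 (by omega) (by omega)).symm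
    · intro h
      have := Nw_inj hq hm ha0 ham (by omega) (by omega) (by omega) (by omega) h
      omega
  · have e : ∀ c : ℤ, 0 ≤ c → c < 2 * m → posZ m q W l A A' a c =
        l + 1 - W - (A' + (if c < m then Nw m q (a - m) c else Mw m q W l A' (a - m) (c - m)) * W)
        := by
      intro c hc0 hc
      by_cases hcm : c < m
      · rw [if_pos hcm]
        exact posZ_high_cross hq hm hk hkW hA' (by omega) ha hc0 hcm
      · unfold posZ
        rw [if_neg ham, if_neg hcm, if_neg hcm]
    rw [e b hb0 hb, e b' hb0' hb']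
    have hs : ∀ n n' : ℤ, n ≠ n' → l + 1 - W - (A' + n * W) + W ≤ l + 1 - W - (A' + n' * W) ∨
        l + 1 - W - (A' + n' * W) + W ≤ l + 1 - W - (A' + n * W) := by
      intro n n' h
      rcases win_sep (W := W) (B := A') hW h with h | h
      · right; linarith
      · left; linarith
    apply hs
    split_ifs with h1 h2 h2
    · intro h
      exact hne (Nw_inj hq hm (by omega) (by omega) hb0 h1 hb0' h2 h)
    · exact (Mw_Nw hq hm (by omega) (by omega) (by omega) (by omega) hb0 h1).symm
    · exact Mw_Nw hq hm (by omega) (by omega) (by omega) (by omega) hb0' h2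
    · intro h
      have := Mw_inj hq hm (by omega) (by omega) (by omega) (by omega) (by omega) (by omega) h
      omega

end

theorem structB {V : Type} [Fintype V] (G : SimpleGraph V) [DecidableRel G.Adj] (m q w k p D : ℕ)
    (hm : 2 * q + 1 ≤ m) (hp : 1 ≤ p)
    (t : V → ℕ) (htK : ∀ v, t v < 2 * m)
    (hw : ∀ v y, ((G.neighborFinset v).filter (fun u => t u = y)).card ≤ w)
    (s : V → ℕ) (hs : ∀ v, s v < k) (hs2 : ∀ u v, G.Adj u v → t u = t v → s u ≠ s v)
    (hkw : k ≤ w + 1)
    (H1 : ((m : ℤ) - 1 - q) * k ≤ ((m : ℤ) - 1 - 2 * q) * (w + 1))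
    (H2 : 2 * ((q : ℤ) + 1) * k + (2 * (m : ℤ) - 1 - 2 * q) * (w + 1) ≤ D + 2)
    (H3 : (m : ℤ) * k + (2 * (m : ℤ) + 1) * (w + 1) ≤ D + p + 2)
    (H4 : (2 * (q : ℤ) + 1) * (w + 1) ≤ p - 1 + (q + 1) * k) :
    TotLab G p (D + 2 * p - 1) := by
  obtain ⟨l, hl⟩ : ∃ l : ℕ, l = D + 2 * p - 1 := ⟨_, rfl⟩
  rw [← hl]
  have hl1 : (l : ℤ) + 1 = D + 2 * p := by omega
  obtain ⟨W, hW⟩ : ∃ W : ℤ, W = (w : ℤ) + 1 := ⟨_, rfl⟩
  rw [← hW] at H1 H2 H3 H4
  have hkW : (k : ℤ) ≤ W := by omega
  have hW1 : 1 ≤ W := by omega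
  have hW0 : 0 ≤ W := by omega
  have hk0 : (0 : ℤ) ≤ k := by positivity
  have hq0 : (0 : ℤ) ≤ q := by positivity
  have hmz : 2 * (q : ℤ) + 1 ≤ m := by exact_mod_cast hm
  obtain ⟨A, hA⟩ : ∃ A : ℤ, A = p - 1 + (q + 1) * k - q * W := ⟨_, rfl⟩
  obtain ⟨A', hA'⟩ : ∃ A' : ℤ, A' = l + 1 - (2 * m - 1) * W - A := ⟨_, rfl⟩
  have hpz : (1 : ℤ) ≤ p := by exact_mod_cast hp
  have c1 : (p : ℤ) - 1 + (q + 1) * k ≤ A + q * W := by rw [hA]; linarith
  have c1' : (p : ℤ) - 1 + (q + 1) * k ≤ A' + q * W := by
    rw [hA', hA, hl1]; nlinarith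
  have c3 : (p : ℤ) - 1 + m * k + (2 * m + 1) * W ≤ l + 2 := by
    have : (l : ℤ) = D + 2 * p - 1 := by omega
    rw [this]; linarith
  have c2 : A + (2 * m + q) * W ≤ l + 1 := by
    rw [hA]
    have : ((q : ℤ) + 1) * k ≤ m * k := mul_le_mul_of_nonneg_right (by omega) hk0
    nlinarith
  have c2' : A' + (2 * m + q) * W ≤ l + 1 := by
    rw [hA', hA]; nlinarith
  have hmk : 2 * (m : ℤ) * k ≤ l + 1 := by
    have h1 : (m : ℤ) * k ≤ m * W := mul_le_mul_of_nonneg_left hkW (by positivity)
    have h2 : (1 : ℤ) ≤ m := by omega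
    have h3 : 1 * 1 ≤ (m : ℤ) * W := mul_le_mul h2 hW1 (by norm_num) (by positivity)
    rw [hl1]; nlinarith
  -- bounds for positions
  have low_bd : ∀ a b : ℤ, 0 ≤ a → a < m → 0 ≤ b → b < 2 * m →
      (p : ℤ) - 1 + (a + 1) * k ≤ posZ m q W l A A' a b := by
    intro a b ha0 ha hb0 hb
    by_cases hbm : b < m
    · have h := (low_low (k := k) (p := p) (l := l) (B := A) hq0 hmz ha0 ha hb0 hbm hk0 hkW c1
        H1 c2 c3).1
      have h2 : (a + 1) * (k : ℤ) ≤ m * k := mul_le_mul_of_nonneg_right (by omega) hk0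
      unfold posZ
      rw [if_pos ha, if_pos hbm]
      linarith
    · unfold posZ
      rw [if_pos ha, if_neg hbm]
      exact cross_low hq0 hmz ha0 ha (by omega) (by omega) hk0 hkW c1 H1
  have high_bd : ∀ a b : ℤ, m ≤ a → a < 2 * m → 0 ≤ b → b < 2 * m →
      posZ m q W l A A' a b + W ≤ l + 1 - ((p : ℤ) - 1 + (a - m + 1) * k) := by
    intro a b ha ha2 hb0 hb
    by_cases hbm : b < m
    · rw [posZ_high_cross hq0 hmz hk0 hkW hA' ha ha2 hb0 hbm]
      have := cross_low (m := m) (q := q) (W := W) (k := k) (p := p) (B := A') (i := a - m)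
        (j := b) hq0 hmz (by omega) (by omega) hb0 hbm hk0 hkW c1' H1
      linarith
    · have h := (low_low (k := k) (p := p) (l := l) (B := A') (i := a - m) (j := b - m) hq0 hmz
        (by omega) (by omega) (by omega) (by omega) hk0 hkW c1' H1 c2' c3).1
      have h2 : (a - m + 1) * (k : ℤ) ≤ m * k := mul_le_mul_of_nonneg_right (by omega) hk0
      unfold posZ
      rw [if_neg (by omega), if_neg hbm]
      linarith
  have nonneg : ∀ a b : ℤ, 0 ≤ a → a < 2 * m → 0 ≤ b → b < 2 * m →
      0 ≤ posZ m q W l A A' a b ∧ posZ m q W l A A' a b + W ≤ l + 1 := by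
    intro a b ha0 ha hb0 hb
    by_cases ham : a < m
    · have h1 := low_bd a b ha0 ham hb0 hb
      have h2 : 0 ≤ (a + 1) * (k : ℤ) := mul_nonneg (by omega) hk0
      refine ⟨by linarith, ?_⟩
      by_cases hbm : b < m
      · have h := (low_low (k := k) (p := p) (l := l) (B := A) hq0 hmz ha0 ham hb0 hbm hk0 hkW c1
          H1 c2 c3).2
        unfold posZ
        rw [if_pos ham, if_pos hbm]
        exact h
      · rw [posZ_comm]
        have h3 := high_bd b a (by omega) hb ha0 ha
        have h4 : 0 ≤ (b - m + 1) * (k : ℤ) := mul_nonneg (by omega) hk0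
        linarith
    · have h3 := high_bd a b (by omega) ha hb0 hb
      have h4 : 0 ≤ (a - m + 1) * (k : ℤ) := mul_nonneg (by omega) hk0
      refine ⟨?_, by linarith⟩
      by_cases hbm : b < m
      · rw [posZ_comm]
        have h1 := low_bd b a hb0 hbm ha0 ha
        have h2 : 0 ≤ (b + 1) * (k : ℤ) := mul_nonneg (by omega) hk0
        linarith
      · have h := (low_low (k := k) (p := p) (l := l) (B := A') (i := a - m) (j := b - m) hq0 hmz
          (by omega) (by omega) (by omega) (by omega) hk0 hkW c1' H1 c2' c3).2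
        unfold posZ
        rw [if_neg ham, if_neg hbm]
        linarith
  refine structA G (2 * m) w k p l t htK hw s hs hs2
    (fun a b => (posZ m q W l A A' a b).toNat) (fun a b => by rw [posZ_comm]) ?_
    (fun a => if a < m then a * k else l + 1 - (a - m + 1) * k) ?_ ?_ ?_ ?_
  · intro a ha b hb b' hb' hne
    have h1 := nonneg a b (by positivity) (by exact_mod_cast ha) (by positivity)
      (by exact_mod_cast hb)
    have h2 := nonneg a b' (by positivity) (by exact_mod_cast ha) (by positivity)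
      (by exact_mod_cast hb')
    have h3 := posZ_sep (l := l) (A := A) hq0 hmz hk0 hkW hA' (a := a) (b := b) (b' := b')
      (by positivity)
      (by exact_mod_cast ha) (by positivity) (by exact_mod_cast hb) (by positivity)
      (by exact_mod_cast hb') (by exact_mod_cast hne)
    omega
  · intro a ha b hb hne
    have hmk' : 2 * m * k ≤ l + 1 := by exact_mod_cast hmk
    split_ifs with h1 h2 h2
    · rcases lt_or_gt_of_ne hne with h | h
      · left
        calc a * k + k = (a + 1) * k := by ring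
          _ ≤ b * k := Nat.mul_le_mul_right _ h
      · right
        calc b * k + k = (b + 1) * k := by ring
          _ ≤ a * k := Nat.mul_le_mul_right _ h
    · left
      have h5 : (a + 1 + (b - m + 1)) * k ≤ 2 * m * k := Nat.mul_le_mul_right _ (by omega)
      have h6 : (a + 1 + (b - m + 1)) * k = a * k + k + (b - m + 1) * k := by ring
      omega
    · right
      have h5 : (b + 1 + (a - m + 1)) * k ≤ 2 * m * k := Nat.mul_le_mul_right _ (by omega)
      have h6 : (b + 1 + (a - m + 1)) * k = b * k + k + (a - m + 1) * k := by ring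
      omega
    · have h5 : (a - m + 1) * k ≤ 2 * m * k := Nat.mul_le_mul_right _ (by omega)
      have h6 : (b - m + 1) * k ≤ 2 * m * k := Nat.mul_le_mul_right _ (by omega)
      rcases lt_or_gt_of_ne hne with h | h
      · right
        have h7 : (a - m + 1 + 1) * k ≤ (b - m + 1) * k := Nat.mul_le_mul_right _ (by omega)
        have h8 : (a - m + 1 + 1) * k = (a - m + 1) * k + k := by ring
        omega
      · left
        have h7 : (b - m + 1 + 1) * k ≤ (a - m + 1) * k := Nat.mul_le_mul_right _ (by omega)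
        have h8 : (b - m + 1 + 1) * k = (b - m + 1) * k + k := by ring
        omega
  · intro a ha
    have hmk' : 2 * m * k ≤ l + 1 := by exact_mod_cast hmk
    split_ifs with h1
    · have h5 : (a + 1) * k ≤ 2 * m * k := Nat.mul_le_mul_right _ (by omega)
      have h6 : (a + 1) * k = a * k + k := by ring
      omega
    · have h5 : (a - m + 1) * k ≤ 2 * m * k := Nat.mul_le_mul_right _ (by omega)
      have h6 : (a - m + 1) * k = (a - m) * k + k := by ring
      omega
  · intro a ha b hb
    have h1 := nonneg a b (by positivity) (by exact_mod_cast ha) (by positivity)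
      (by exact_mod_cast hb)
    omega
  · intro a ha b hb
    have hmk' : 2 * m * k ≤ l + 1 := by exact_mod_cast hmk
    have h1 := nonneg a b (by positivity) (by exact_mod_cast ha) (by positivity)
      (by exact_mod_cast hb)
    split_ifs with h2
    · left
      have h3 := low_bd a b (by positivity) (by exact_mod_cast h2) (by positivity)
        (by exact_mod_cast hb)
      have h4 : ((a : ℤ) + 1) * k = ((a * k + k : ℕ) : ℤ) := by push_cast; ring
      rw [h4] at h3
      omega
    · right
      have h3 := high_bd a b (by exact_mod_cast (not_lt.1 h2)) (by exact_mod_cast ha)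
        (by positivity) (by exact_mod_cast hb)
      have h5 : (a - m + 1) * k ≤ 2 * m * k := Nat.mul_le_mul_right _ (by omega)
      have h4 : ((a : ℤ) - m + 1) * k = (((a - m + 1) * k : ℕ) : ℤ) := by
        push_cast [Nat.cast_sub (not_lt.1 h2)]; ring
      rw [h4] at h3
      omega

end Pool.Agent.TH104.HY
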