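import Mathlib
import Pool.Agent.TH104.HY.C
import Pool.Agent.TH104.HY.D

set_option autoImplicit false

/-!
# Degenerate graphs
-/

namespace Pool.Agent.TH104.HY

open Finset Pool.Agent.Helper635.LLL Pool.Agent.H238R2.HY

/-- exponential tail against a quadratic -/
lemma exp_small {c D : ℝ} (hc : 0 < c) (hD : 0 < D) :
    Real.exp (-(c * D)) * D ^ 2 ≤ 6 / (c ^ 3 * D) := by
  have h1 := Real.pow_div_factorial_le_exp (c * D) (by positivity) 3
  have h2 : (Nat.factorial 3 : ℝ) = 6 := by norm_num [Nat.factorial]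
  rw [h2] at h1
  rw [Real.exp_neg]
  have h3 : (0 : ℝ) < (c * D) ^ 3 / 6 := by positivity
  have h4 : (Real.exp (c * D))⁻¹ ≤ ((c * D) ^ 3 / 6)⁻¹ := inv_anti₀ h3 h1
  calc (Real.exp (c * D))⁻¹ * D ^ 2 ≤ ((c * D) ^ 3 / 6)⁻¹ * D ^ 2 :=
        mul_le_mul_of_nonneg_right h4 (by positivity)
    _ = 6 / (c ^ 3 * D) := by field_simp

lemma exp_cond {m e D s' x : ℝ} (hm : 0 < m) (he : 0 < e) (hD : 0 < D) (hx : x = 1 / (4 * m))
    (hs2 : e * D / 2 ≤ s') (hD3 : 48 * (2 * m) * (192 * m ^ 3 / e) ^ 3 ≤ D) :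
    4 * (2 * (2 * m) * Real.exp (-(x ^ 2 * s' / (3 * (2 * m))))) * (D * D) ≤ 1 := by
  have hc : (0 : ℝ) < e / (192 * m ^ 3) := by positivity
  have h1 := exp_small hc hD
  have h2 : Real.exp (-(x ^ 2 * s' / (3 * (2 * m)))) ≤
      Real.exp (-(e / (192 * m ^ 3) * D)) := by
    apply Real.exp_le_exp.2
    have h3 : e / (192 * m ^ 3) * D = x ^ 2 * (e * D / 2) / (3 * (2 * m)) := by
      rw [hx]; field_simp; ring
    rw [h3]
    have h4 : x ^ 2 * (e * D / 2) / (3 * (2 * m)) ≤ x ^ 2 * s' / (3 * (2 * m)) := by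
      gcongr
    linarith
  have h5 : 6 / ((e / (192 * m ^ 3)) ^ 3 * D) * (8 * (2 * m)) ≤ 1 := by
    have h6 : 6 / ((e / (192 * m ^ 3)) ^ 3 * D) * (8 * (2 * m)) =
        48 * (2 * m) * (192 * m ^ 3 / e) ^ 3 / D := by
      field_simp
      ring
    rw [h6, div_le_one hD]
    exact hD3
  calc 4 * (2 * (2 * m) * Real.exp (-(x ^ 2 * s' / (3 * (2 * m))))) * (D * D)
      ≤ 4 * (2 * (2 * m) * Real.exp (-(e / (192 * m ^ 3) * D))) * (D * D) := by gcongr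
    _ = Real.exp (-(e / (192 * m ^ 3) * D)) * D ^ 2 * (8 * (2 * m)) := by ring
    _ ≤ 6 / ((e / (192 * m ^ 3)) ^ 3 * D) * (8 * (2 * m)) :=
        mul_le_mul_of_nonneg_right h1 (by positivity)
    _ ≤ 1 := h5

lemma arH1 {m q e u w k : ℝ} (hq0 : 0 ≤ q) (hu0 : 0 < u)
    (hm : 8 * q + 12 ≤ e * (m - 1 - q)) (hZ : 8 * q + 12 ≤ m - 1 - q)
    (hue : 12 ≤ e * u) (huw : u ≤ w + 1) (hku3 : k ≤ (1 - e) * u) :
    (m - 1 - q) * (k + 1) ≤ (m - 1 - 2 * q) * (w + 1) := by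
  obtain ⟨Z, hZ'⟩ : ∃ Z : ℝ, Z = m - 1 - q := ⟨_, rfl⟩
  rw [← hZ'] at hm hZ ⊢
  have e1 : m - 1 - 2 * q = Z - q := by rw [hZ']; ring
  rw [e1]
  have hZ0 : 0 ≤ Z := by linarith
  have h1 : Z * (k + 1) ≤ Z * ((1 - e) * u + 1) :=
    mul_le_mul_of_nonneg_left (by linarith) hZ0
  have h2 : (Z - q) * u ≤ (Z - q) * (w + 1) := mul_le_mul_of_nonneg_left huw (by linarith)
  have h3 : (8 * q + 12) * u ≤ e * Z * u := mul_le_mul_of_nonneg_right hm hu0.le
  have h4 : Z * 12 ≤ Z * (e * u) := mul_le_mul_of_nonneg_left hue hZ0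
  have h5 : 0 ≤ q * u := by positivity
  nlinarith

lemma arH2 {m q e u w k D x : ℝ} (hq0 : 0 ≤ q) (hu0 : 0 < u) (hm0 : 0 < m)
    (hq : 1 ≤ (q + 1) * e) (hZ : 8 * q + 12 ≤ m - 1 - q)
    (hwu : w ≤ u) (hku3 : k ≤ (1 - e) * u) (hxm : x * m = 1 / 4)
    (hum : 2 * m * u = D + x * D) (hmu : D ≤ 2 * m * u) (hD2 : 4 * m * (2 * m + 1) ≤ D) :
    2 * (q + 1) * (k + 1) + (2 * m - 1 - 2 * q) * (w + 1) ≤ D + 2 := by
  have h1 : 2 * (q + 1) * (k + 1) ≤ 2 * (q + 1) * ((1 - e) * u + 1) :=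
    mul_le_mul_of_nonneg_left (by linarith) (by positivity)
  have h2 : (2 * m - 1 - 2 * q) * (w + 1) ≤ (2 * m - 1 - 2 * q) * (u + 1) :=
    mul_le_mul_of_nonneg_left (by linarith) (by linarith)
  have h3 : 1 * u ≤ (q + 1) * e * u := mul_le_mul_of_nonneg_right hq hu0.le
  have h4 : x * D ≤ u / 2 := by
    have h5 : m * (x * D) ≤ m * (u / 2) := by
      have : m * (x * D) = (x * m) * D := by ring
      rw [this, hxm]
      linarith
    exact le_of_mul_le_mul_left h5 hm0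
  have h6 : 2 * (2 * m + 1) ≤ u := by
    have h7 : 2 * m * (2 * (2 * m + 1)) ≤ 2 * m * u := by linarith
    exact le_of_mul_le_mul_left h7 (by positivity)
  nlinarith

lemma arH3 {m q e u w k D x s s' p : ℝ} (hm0 : 0 < m) (hx0 : 0 < x) (hx4 : x ≤ 1 / 4)
    (hDpos : 0 < D) (he : 0 < e) (hs'D : s' ≤ D) (hq0 : 0 ≤ q)
    (hem : 8 * q + 12 ≤ e * m) (hwu : w ≤ u) (hxm : x * m = 1 / 4)
    (hum : 2 * m * u = D + x * D) (hku2 : 2 * m * k ≤ (1 + x) * s')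
    (hs3 : s' ≤ s + e * D / 2 + 1) (hp : s + e * D ≤ 2 * p) (hD1 : 24 * m ≤ e * D) :
    m * (k + 1) + (2 * m + 1) * (w + 1) ≤ D + p + 2 := by
  have h1 : (2 * m + 1) * (w + 1) ≤ (2 * m + 1) * (u + 1) :=
    mul_le_mul_of_nonneg_left (by linarith) (by positivity)
  obtain ⟨y, hy⟩ : ∃ y : ℝ, y = D / m := ⟨_, rfl⟩
  have hym : y * m = D := by rw [hy]; field_simp
  have hy0 : 0 < y := by rw [hy]; positivity
  have hxD : x * D = y / 4 := by
    rw [← hym]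
    have : x * (y * m) = (x * m) * y := by ring
    rw [this, hxm]; ring
  have hxs : x * s' ≤ y / 4 := by
    rw [← hxD]
    exact mul_le_mul_of_nonneg_left hs'D hx0.le
  have huy : u ≤ 5 * y / 8 := by
    have h5 : 2 * m * u ≤ 2 * m * (5 * y / 8) := by
      rw [hum, hxD]
      have h6 : x * D ≤ 1 / 4 * D := mul_le_mul_of_nonneg_right hx4 hDpos.le
      have h7 : 2 * m * (5 * y / 8) = 5 / 4 * (y * m) := by ring
      rw [h7, hym]
      linarith
    exact le_of_mul_le_mul_left h5 (by positivity)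
  have hye : 12 * y ≤ e * D := by
    rw [← hym]
    have : e * (y * m) = (e * m) * y := by ring
    rw [this]
    exact mul_le_mul_of_nonneg_right (by linarith) hy0.le
  have h8 : (2 * m + 1) * (u + 1) = 2 * m * u + 2 * m + u + 1 := by ring
  rw [h8, hum, hxD] at h1
  have h9 : m * (k + 1) ≤ s' / 2 + y / 8 + m := by
    have : m * (k + 1) = 2 * m * k / 2 + m := by ring
    rw [this]
    linarith
  linarith

lemma arH4 {m q e u w k D x s p : ℝ} (hm0 : 0 < m) (hx4 : x ≤ 1 / 4) (hk0 : 0 ≤ k)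
    (hs0 : 0 ≤ s) (hDpos : 0 < D) (he : 0 < e) (he2 : e ≤ 1 / 2) (hq0 : 0 ≤ q)
    (hem : 8 * q + 12 ≤ e * m) (hwu : w ≤ u)
    (hum : 2 * m * u = D + x * D) (hp : s + e * D ≤ 2 * p) (hD1 : 24 * m ≤ e * D) :
    (2 * q + 1) * (w + 1) ≤ p - 1 + (q + 1) * (k + 1) := by
  have h1 : 0 ≤ (q + 1) * (k + 1) := by positivity
  have h2 : (2 * q + 1) * (w + 1) ≤ (2 * q + 1) * (u + 1) :=
    mul_le_mul_of_nonneg_left (by linarith) (by positivity)
  have h3 : (2 * q + 1) * u ≤ e * D / 4 := by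
    have h5 : (4 * m) * ((2 * q + 1) * u) ≤ (4 * m) * (e * D / 4) := by
      have e1 : (4 * m) * ((2 * q + 1) * u) = 2 * (2 * q + 1) * (2 * m * u) := by
        ring
      rw [e1, hum]
      have e2 : D + x * D ≤ 5 / 4 * D := by
        have := mul_le_mul_of_nonneg_right hx4 hDpos.le
        linarith
      have e3 : 2 * (2 * q + 1) * (D + x * D) ≤ 2 * (2 * q + 1) * (5 / 4 * D) :=
        mul_le_mul_of_nonneg_left e2 (by positivity)
      have e4 : (8 * q + 12) * D ≤ e * m * D := mul_le_mul_of_nonneg_right hem hDpos.le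
      nlinarith
    exact le_of_mul_le_mul_left h5 (by positivity)
  have h4 : 8 * q + 12 ≤ m := by nlinarith
  nlinarith

/-- the structure theorem with real parameters -/
theorem degen_core {V : Type} [Fintype V] (G : SimpleGraph V) [DecidableRel G.Adj]
    (D s s' p q m : ℕ) (e : ℝ) (he : 0 < e) (he2 : e ≤ 1 / 2)
    (hD : ∀ v, G.degree v ≤ D)
    (hdeg : ∀ X : Finset V, X.Nonempty → ∃ v ∈ X, ∃ S : Finset V,
      (∀ u ∈ X, G.Adj v u → u ∈ S) ∧ S.card ≤ s)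
    (hss : s ≤ s') (hs1 : (s' : ℝ) ≤ (1 - e) * D) (hs2 : e * D / 2 ≤ s')
    (hs3 : (s' : ℝ) ≤ s + e * D / 2 + 1) (hp : (s : ℝ) + e * D ≤ 2 * p)
    (hq : 1 ≤ ((q : ℝ) + 1) * e) (hm : 8 * (q : ℝ) + 12 ≤ e * ((m : ℝ) - 1 - q))
    (hD1 : 24 * (m : ℝ) ≤ e * D) (hD2 : 4 * (m : ℝ) * (2 * m + 1) ≤ D)
    (hD3 : 48 * (2 * (m : ℝ)) * (192 * (m : ℝ) ^ 3 / e) ^ 3 ≤ D) :
    TotLab G p (D + 2 * p - 1) := by
  classical
  have hq0 : (0 : ℝ) ≤ q := by positivity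
  have hZ : 8 * (q : ℝ) + 12 ≤ (m : ℝ) - 1 - q := by nlinarith
  have hm2 : 2 * (q : ℝ) + 1 ≤ m := by linarith
  have hm2' : 2 * q + 1 ≤ m := by exact_mod_cast hm2
  have hmR : (13 : ℝ) ≤ m := by linarith
  have hm0 : (0 : ℝ) < m := by linarith
  have hDpos : (0 : ℝ) < D := by nlinarith
  have hem : 8 * (q : ℝ) + 12 ≤ e * m := by
    have : 0 ≤ e * (1 + q) := by positivity
    linarith
  obtain ⟨x, hx⟩ : ∃ x : ℝ, x = 1 / (4 * (m : ℝ)) := ⟨_, rfl⟩
  have hxm : x * m = 1 / 4 := by rw [hx]; field_simp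
  have hx0 : 0 < x := by rw [hx]; positivity
  have hx4 : x ≤ 1 / 4 := by nlinarith
  obtain ⟨u, hu⟩ : ∃ u : ℝ, u = (1 + x) * D / (2 * (m : ℝ)) := ⟨_, rfl⟩
  have hum : 2 * m * u = D + x * D := by rw [hu]; field_simp
  have hu0 : 0 < u := by rw [hu]; positivity
  have hmu : (D : ℝ) ≤ 2 * m * u := by
    rw [hum]
    have : 0 ≤ x * D := by positivity
    linarith
  have hs'0 : (0 : ℝ) < s' := by
    have : 0 < e * D / 2 := by positivity
    linarith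
  have hs'Dr : (s' : ℝ) ≤ D := by
    have : 0 < e * D := by positivity
    linarith
  have hs'D : s' ≤ D := by exact_mod_cast hs'Dr
  have hD1' : 1 ≤ D := by
    have : (0 : ℝ) < D := hDpos
    exact_mod_cast this
  have hcast : ((2 * m : ℕ) : ℝ) = 2 * (m : ℝ) := by push_cast; ring
  -- the ordering
  obtain ⟨r, hr, hr2⟩ := degen_order G s hdeg
  choose S hS1 hS2 using hr2
  have hK : 1 ≤ 2 * m := by omega
  obtain ⟨t, ht1, ht2, ht3⟩ := partition2 G (2 * m) D s' hK hD1' hs'D hD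
    (fun v => (G.neighborFinset v).filter (fun u => r u < r v)) (fun v => Finset.filter_subset _ _)
    (by
      intro v
      refine le_trans (Finset.card_le_card ?_) ((hS2 v).trans hss)
      intro u hu
      rw [mem_filter, SimpleGraph.mem_neighborFinset] at hu
      exact hS1 v u hu.1 hu.2) x hx0.le (by linarith)
    (by
      have := exp_cond hm0 he hDpos hx hs2 hD3
      rw [hcast]
      push_cast
      exact this)
  rw [hcast] at ht2 ht3
  obtain ⟨w, hw⟩ : ∃ w : ℕ, w = ⌊(1 + x) * D / (2 * (m : ℝ))⌋₊ := ⟨_, rfl⟩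
  obtain ⟨k', hk'⟩ : ∃ k' : ℕ, k' = ⌊(1 + x) * s' / (2 * (m : ℝ))⌋₊ := ⟨_, rfl⟩
  rw [← hw] at ht2
  rw [← hk'] at ht3
  obtain ⟨c, hc1, hc2⟩ := order_colour G r hr t (fun v => (G.neighborFinset v).filter
    (fun u => r u < r v)) (by
      intro v u h1 h2
      rw [mem_filter, SimpleGraph.mem_neighborFinset]
      exact ⟨h1, h2⟩) (k' + 1) (fun v y => Nat.lt_succ_of_le (ht3 v y))
  have hwu : (w : ℝ) ≤ u := by rw [hw, hu]; exact Nat.floor_le (by positivity)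
  have huw : u ≤ w + 1 := by rw [hw, hu]; exact (Nat.lt_floor_add_one _).le
  have hku : (k' : ℝ) ≤ (1 + x) * s' / (2 * (m : ℝ)) := by
    rw [hk']; exact Nat.floor_le (by positivity)
  have hku2 : 2 * m * (k' : ℝ) ≤ (1 + x) * s' := by
    rw [le_div_iff₀ (by positivity)] at hku
    linarith
  have hku3 : (k' : ℝ) ≤ (1 - e) * u := by
    refine hku.trans ?_
    rw [hu, ← mul_div_assoc]
    refine div_le_div_of_nonneg_right ?_ (by positivity)
    have := mul_le_mul_of_nonneg_left hs1 (by linarith : (0 : ℝ) ≤ 1 + x)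
    linarith
  have hkw : k' + 1 ≤ w + 1 := by
    have : k' ≤ w := by
      rw [hk', hw]
      apply Nat.floor_mono
      refine div_le_div_of_nonneg_right ?_ (by positivity)
      exact mul_le_mul_of_nonneg_left hs'Dr (by linarith)
    omega
  have hs0 : (0 : ℝ) ≤ s := by positivity
  have hp1 : 1 ≤ p := by
    have h1 : (0 : ℝ) < e * D := by positivity
    have : (0 : ℝ) < p := by linarith
    exact_mod_cast this
  -- u e ≥ 12
  have hue : 12 ≤ e * u := by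
    have h1 : 24 * (m : ℝ) ≤ e * (2 * m * u) := hD1.trans (mul_le_mul_of_nonneg_left hmu he.le)
    have h3 : (2 * (m : ℝ)) * 12 ≤ (2 * (m : ℝ)) * (e * u) := by linarith
    exact le_of_mul_le_mul_left h3 (by positivity)
  have hk0 : (0 : ℝ) ≤ k' := by positivity
  refine structB G m q w (k' + 1) p D hm2' hp1 t ht1 ht2 c hc1 hc2 hkw ?_ ?_ ?_ ?_
  · have h := arH1 hq0 hu0 hm hZ hue huw hku3
    exact_mod_cast h
  · have h := arH2 hq0 hu0 hm0 hq hZ hwu hku3 hxm hum hmu hD2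
    exact_mod_cast h
  · have h := arH3 hm0 hx0 hx4 hDpos he hs'Dr hq0 hem hwu hxm hum hku2 hs3 hp hD1
    exact_mod_cast h
  · have h := arH4 hm0 hx4 hk0 hs0 hDpos he he2 hq0 hem hwu hum hp hD1
    exact_mod_cast h

theorem degen_main (ε : ℝ) (hε : 0 < ε) : ∃ D₀ : ℕ, ∀ (V : Type) [Fintype V]
    (G : SimpleGraph V) [DecidableRel G.Adj] (D s p : ℕ), D₀ ≤ D → (∀ v, G.degree v ≤ D) →
    (∀ X : Finset V, X.Nonempty → ∃ v ∈ X, ∃ S : Finset V,
      (∀ u ∈ X, G.Adj v u → u ∈ S) ∧ S.card ≤ s) →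
    (s : ℝ) ≤ (1 - ε) * D → (s : ℝ) + ε * D ≤ 2 * p → TotLab G p (D + 2 * p - 1) := by
  obtain ⟨e, he⟩ : ∃ e : ℝ, e = min ε (1 / 2) := ⟨_, rfl⟩
  have he0 : 0 < e := by rw [he]; exact lt_min hε (by norm_num)
  have heε : e ≤ ε := by rw [he]; exact min_le_left _ _
  have he2 : e ≤ 1 / 2 := by rw [he]; exact min_le_right _ _
  obtain ⟨q, hq⟩ : ∃ q : ℕ, 1 / e ≤ q := exists_nat_ge _
  obtain ⟨m, hm⟩ : ∃ m : ℕ, (8 * (q : ℝ) + 12) / e + 1 + q ≤ m := exists_nat_ge _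
  obtain ⟨D₀, hD₀⟩ : ∃ D₀ : ℕ, 24 * (m : ℝ) / e + 4 * (m : ℝ) * (2 * m + 1) +
    48 * (2 * (m : ℝ)) * (192 * (m : ℝ) ^ 3 / e) ^ 3 + 4 ≤ D₀ := exists_nat_ge _
  refine ⟨D₀, ?_⟩
  intro V _ G _ D s p hD₀D hD hdeg hs hp
  have hDr : (D₀ : ℝ) ≤ D := by exact_mod_cast hD₀D
  have a1 : 0 ≤ 24 * (m : ℝ) / e := by positivity
  have a2 : 0 ≤ 4 * (m : ℝ) * (2 * m + 1) := by positivity
  have a3 : 0 ≤ 48 * (2 * (m : ℝ)) * (192 * (m : ℝ) ^ 3 / e) ^ 3 := by positivity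
  have hD4 : (4 : ℝ) ≤ D := by linarith
  have hDe : e * D ≤ ε * D := mul_le_mul_of_nonneg_right heε (by linarith)
  have hDe2 : e * D ≤ 1 / 2 * D := mul_le_mul_of_nonneg_right he2 (by linarith)
  have hDe0 : 0 ≤ e * D := by positivity
  have hceil := Nat.ceil_lt_add_one (a := e * D / 2) (by positivity)
  have hs0 : (0 : ℝ) ≤ s := by positivity
  refine degen_core G D s (max s ⌈e * D / 2⌉₊) p q m e he0 he2 hD hdeg (le_max_left _ _) ?_ ?_ ?_
    ?_ ?_ ?_ ?_ ?_ ?_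
  · rw [Nat.cast_max]
    apply max_le
    · linarith
    · linarith
  · rw [Nat.cast_max]
    exact (Nat.le_ceil _).trans (le_max_right _ _)
  · rw [Nat.cast_max]
    apply max_le
    · linarith
    · linarith
  · linarith
  · have h1 : 1 ≤ q * e := by rwa [div_le_iff₀ he0] at hq
    linarith
  · have h1 : (8 * (q : ℝ) + 12) / e ≤ m - 1 - q := by linarith
    rw [div_le_iff₀ he0] at h1
    linarith
  · have h1 : 24 * (m : ℝ) / e ≤ D := by linarith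
    rw [div_le_iff₀ he0] at h1
    linarith
  · linarith
  · linarith

end Pool.Agent.TH104.HY
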