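import Mathlib
import Pool.Agent.TH104.HY.E

set_option autoImplicit false

/-!
# The uniform form of the theorem on degenerate graphs
-/

namespace Pool.Agent.TH104.HY

open Finset Pool.Agent.Helper635.LLL Pool.Agent.H238R2.HY

/-- balanced partition for the neighbourhoods and for given subsets of them -/
theorem partition3 {V : Type} [Fintype V] (G : SimpleGraph V) [DecidableRel G.Adj]
    (K D s : ℕ) (hK : 1 ≤ K) (hD1 : 1 ≤ D) (hD : ∀ v, G.degree v ≤ D)
    (B : V → Finset V) (hBN : ∀ v, B v ⊆ G.neighborFinset v) (hB : ∀ v, (B v).card ≤ s)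
    (x x' : ℝ) (hx : 0 ≤ x) (hx1 : x ≤ 1) (hx' : 0 ≤ x') (hx1' : x' ≤ 1)
    (h4 : 4 * (K * Real.exp (-(x ^ 2 * D / (3 * K))) + K * Real.exp (-(x' ^ 2 * s / (3 * K)))) *
      (D * D : ℕ) ≤ 1) :
    ∃ t : V → ℕ, (∀ v, t v < K) ∧
      (∀ v y, ((G.neighborFinset v).filter (fun u => t u = y)).card ≤ ⌊(1 + x) * D / K⌋₊) ∧
      (∀ v y, ((B v).filter (fun u => t u = y)).card ≤ ⌊(1 + x') * s / K⌋₊) := by
  classical
  have : Nonempty (Fin K) := ⟨⟨0, hK⟩⟩
  have hcardpos : 0 < Fintype.card (V → Fin K) := Fintype.card_pos
  have hKpos : (0 : ℝ) < K := by exact_mod_cast hK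
  set w := ⌊(1 + x) * D / K⌋₊ with hw
  set k := ⌊(1 + x') * s / K⌋₊ with hk
  have hm : (1 + x) * D / K ≤ ((w + 1 : ℕ) : ℝ) := by
    push_cast; exact (Nat.lt_floor_add_one _).le
  have hm2 : (1 + x') * s / K ≤ ((k + 1 : ℕ) : ℝ) := by
    push_cast; exact (Nat.lt_floor_add_one _).le
  set Bad : V → Fin K → (V → Fin K) → Prop := fun v y ω =>
    w + 1 ≤ ((G.neighborFinset v).filter (fun u => ω u = y)).card ∨
    k + 1 ≤ ((B v).filter (fun u => ω u = y)).card with hBad
  obtain ⟨ω, hω⟩ := lll (ι := V) univ
    (fun v (ω : V → Fin K) => ∃ y : Fin K, Bad v y ω) (fun v => G.neighborFinset v)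
    (by
      intro v _ ω ω' hag hbad
      obtain ⟨y, hy⟩ := hbad
      refine ⟨y, ?_⟩
      rcases hy with hy | hy
      · left
        refine le_trans hy (Finset.card_le_card ?_)
        intro u hu
        rw [mem_filter] at hu ⊢
        exact ⟨hu.1, by rw [← hag u hu.1]; exact hu.2⟩
      · right
        refine le_trans hy (Finset.card_le_card ?_)
        intro u hu
        rw [mem_filter] at hu ⊢
        exact ⟨hu.1, by rw [← hag u (hBN v hu.1)]; exact hu.2⟩)
    (K * Real.exp (-(x ^ 2 * D / (3 * K))) + K * Real.exp (-(x' ^ 2 * s / (3 * K)))) (D * D)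
    (by positivity)
    (by
      intro v _
      have hsub : ev (fun ω : V → Fin K => ∃ y : Fin K, Bad v y ω) ⊆
          (Finset.univ : Finset (Fin K)).biUnion
            (fun y => ev (fun ω : V → Fin K => w + 1 ≤ ((G.neighborFinset v).filter
              (fun u => ω u = y)).card) ∪ ev (fun ω : V → Fin K => k + 1 ≤ ((B v).filter
              (fun u => ω u = y)).card)) := by
        intro ω hω
        rw [mem_ev] at hω
        obtain ⟨j, hj⟩ := hω
        rw [Finset.mem_biUnion]
        refine ⟨j, Finset.mem_univ _, ?_⟩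
        rw [mem_union]
        rcases hj with hj | hj
        · left; exact mem_ev.mpr hj
        · right; exact mem_ev.mpr hj
      have h1 := (Finset.card_le_card hsub).trans Finset.card_biUnion_le
      have h2 : (cnt (fun ω : V → Fin K => ∃ y : Fin K, Bad v y ω) : ℝ) ≤ ∑ y : Fin K,
          ((cnt (fun ω : V → Fin K => w + 1 ≤ ((G.neighborFinset v).filter
              (fun u => ω u = y)).card) : ℝ) + (cnt (fun ω : V → Fin K => k + 1 ≤
              ((B v).filter (fun u => ω u = y)).card) : ℝ)) := by
        have h3 : (cnt (fun ω : V → Fin K => ∃ y : Fin K, Bad v y ω)) ≤ ∑ y : Fin K,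
          ((cnt (fun ω : V → Fin K => w + 1 ≤ ((G.neighborFinset v).filter
              (fun u => ω u = y)).card)) + (cnt (fun ω : V → Fin K => k + 1 ≤
              ((B v).filter (fun u => ω u = y)).card))) := by
          refine h1.trans (Finset.sum_le_sum ?_)
          intro y _
          exact Finset.card_union_le _ _
        exact_mod_cast h3
      refine h2.trans ?_
      have h5 : ∀ y ∈ (univ : Finset (Fin K)),
          ((cnt (fun ω : V → Fin K => w + 1 ≤ ((G.neighborFinset v).filter
              (fun u => ω u = y)).card) : ℝ) + (cnt (fun ω : V → Fin K => k + 1 ≤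
              ((B v).filter (fun u => ω u = y)).card) : ℝ)) ≤
            Real.exp (-(x ^ 2 * D / (3 * K))) * Fintype.card (V → Fin K) +
            Real.exp (-(x' ^ 2 * s / (3 * K))) * Fintype.card (V → Fin K) := by
        intro y _
        have h6 := tail K D hK (G.neighborFinset v) (by
          rw [SimpleGraph.card_neighborFinset_eq_degree]; exact hD v) y x hx hx1 (w + 1) hm
        have h7 := tail K s hK (B v) (hB v) y x' hx' hx1' (k + 1) hm2
        linarith
      refine (Finset.sum_le_sum h5).trans ?_
      rw [Finset.sum_const, Finset.card_univ, Fintype.card_fin, nsmul_eq_mul]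
      exact le_of_eq (by ring))
    (by
      intro v _
      have hsub : univ.filter (fun j => ¬ Disjoint (G.neighborFinset v) (G.neighborFinset j)) ⊆
          (G.neighborFinset v).biUnion (fun u => G.neighborFinset u) := by
        intro j hj
        rw [mem_filter, Finset.not_disjoint_iff] at hj
        obtain ⟨u, hu1, hu2⟩ := hj.2
        rw [mem_biUnion]
        refine ⟨u, hu1, ?_⟩
        rw [SimpleGraph.mem_neighborFinset] at hu2 ⊢
        exact hu2.symm
      refine (Finset.card_le_card hsub).trans (Finset.card_biUnion_le.trans ?_)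
      have hs : ∑ u ∈ G.neighborFinset v, (G.neighborFinset u).card ≤
          ∑ _u ∈ G.neighborFinset v, D :=
        Finset.sum_le_sum (fun u _ => by
          rw [SimpleGraph.card_neighborFinset_eq_degree]; exact hD u)
      refine hs.trans ?_
      rw [Finset.sum_const, smul_eq_mul, SimpleGraph.card_neighborFinset_eq_degree]
      exact Nat.mul_le_mul_right _ (hD v))
    (by exact_mod_cast h4) (Nat.one_le_iff_ne_zero.2 (by positivity)) hcardpos
  have hfil : ∀ (S : Finset V) (y : ℕ) (M : ℕ),
      (∀ y' : Fin K, (S.filter (fun u => ω u = y')).card ≤ M) →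
      (S.filter (fun u => (ω u : ℕ) = y)).card ≤ M := by
    intro S y M h
    by_cases hy : y < K
    · have h3 : S.filter (fun u => (ω u : ℕ) = y) = S.filter (fun u => ω u = ⟨y, hy⟩) := by
        apply Finset.filter_congr
        intro u _
        rw [Fin.ext_iff]
      rw [h3]
      exact h ⟨y, hy⟩
    · have h3 : S.filter (fun u => (ω u : ℕ) = y) = ∅ := by
        apply Finset.filter_eq_empty_iff.2
        intro u _ h
        exact hy (by rw [← h]; exact (ω u).2)
      rw [h3]; simp
  refine ⟨fun v => (ω v : ℕ), fun v => (ω v).2, ?_, ?_⟩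
  · intro v y
    apply hfil
    intro y'
    have h1 := hω v (mem_univ v)
    rw [not_exists] at h1
    have h2 := h1 y'
    simp only [hBad, not_or] at h2
    omega
  · intro v y
    apply hfil
    intro y'
    have h1 := hω v (mem_univ v)
    rw [not_exists] at h1
    have h2 := h1 y'
    simp only [hBad, not_or] at h2
    omega

end Pool.Agent.TH104.HY
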