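import Mathlib
import Pool.Agent.TH104.HY.F

set_option autoImplicit false

/-!
# The uniform form of the theorem on degenerate graphs: arithmetic and proof
-/

namespace Pool.Agent.TH104.HY

open Finset Pool.Agent.Helper635.LLL Pool.Agent.H238R2.HY

lemma grR {y R m : ℝ} (hy : 100 ≤ y) (hR : 0 < R) (hm1 : y < m + 1) (u D : ℝ)
    (hD : y * R = D) (hum : 2 * m * u = D + 5 * R) : u ≤ 2 * R := by
  have hm0 : 0 < m := by linarith
  have h1 : 2 * m * u ≤ 2 * m * (2 * R) := by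
    rw [hum, ← hD]
    nlinarith
  exact le_of_mul_le_mul_left h1 (by positivity)

lemma grw {m R y u w k s g D : ℝ} (hy : 100 ≤ y) (hR : y ≤ R) (hm1 : y < m + 1) (hmy : m ≤ y)
    (hum : 2 * m * u = D + 5 * R) (huw : u ≤ w + 1) (hku : 2 * m * k ≤ s + 30 * R)
    (hg : s + g = D) (hgR : 1000 * R ≤ g) : g ≤ 4 * m * (w - k) := by
  have hm0 : 0 < m := by linarith
  have h1 : 2 * m * u ≤ 2 * m * (w + 1) := mul_le_mul_of_nonneg_left huw (by linarith)
  have h2 : 4 * m * (w - k) = 2 * (2 * m * (w + 1) - 2 * m * k - 2 * m) := by ring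
  rw [h2]
  linarith

lemma grH1 {m q R y u w k g D : ℝ} (hy : 100 ≤ y) (hR : y ≤ R) (hm1 : y < m + 1) (hmy : m ≤ y)
    (hq0 : 0 ≤ q) (hD : y * R = D) (hu2 : u ≤ 2 * R) (hwu : w ≤ u)
    (hwk : g ≤ 4 * m * (w - k)) (hg0 : 0 < g) (hg : g ≤ D) (hgR : 1000 * R ≤ g)
    (hq1 : q * g ≤ 20 * D + g) (hg2 : 1000 * D ^ 2 ≤ y * g ^ 2) (hqy : 8 * q + 8 ≤ y) :
    (m - 1 - q) * (k + 1) ≤ (m - 1 - 2 * q) * (w + 1) := by
  have hm0 : 0 < m := by linarith
  have hR0 : 0 < R := by linarith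
  have hD0 : 0 < D := by rw [← hD]; positivity
  have hwk0 : 0 ≤ w - k := by
    have h1 : (4 * m) * 0 ≤ (4 * m) * (w - k) := by linarith
    exact le_of_mul_le_mul_left h1 (by positivity)
  suffices h : q * (w + 1) ≤ (m - 1 - q) * (w - k) by nlinarith
  have h3 : q * (w + 1) ≤ q * (3 * R) := mul_le_mul_of_nonneg_left (by linarith) hq0
  have h4 : y / 2 * (w - k) ≤ (m - 1 - q) * (w - k) :=
    mul_le_mul_of_nonneg_right (by linarith) hwk0
  suffices h : q * (3 * R) ≤ y / 2 * (w - k) by linarith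
  -- multiply by 4 m
  have h5 : g * y ≤ 4 * m * (w - k) * y := mul_le_mul_of_nonneg_right hwk (by linarith)
  have h6 : q * (24 * D) ≤ g * y := by
    have h7 : q * (24 * D) * g ≤ g * y * g := by
      have h8 : q * (24 * D) * g = q * g * (24 * D) := by ring
      rw [h8]
      have h9 : q * g * (24 * D) ≤ (20 * D + g) * (24 * D) :=
        mul_le_mul_of_nonneg_right hq1 (by positivity)
      have h10 : g * D ≤ D * D := mul_le_mul_of_nonneg_right hg hD0.le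
      nlinarith
    exact le_of_mul_le_mul_right h7 hg0
  have h11 : (8 * m) * (q * (3 * R)) ≤ (8 * m) * (y / 2 * (w - k)) := by
    have h12 : (8 * m) * (q * (3 * R)) ≤ (8 * y) * (q * (3 * R)) :=
      mul_le_mul_of_nonneg_right (by linarith) (by positivity)
    have h13 : (8 * y) * (q * (3 * R)) = q * (24 * D) := by rw [← hD]; ring
    rw [h13] at h12
    have h14 : (8 * m) * (y / 2 * (w - k)) = 4 * m * (w - k) * y := by ring
    rw [h14]
    linarith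
  exact le_of_mul_le_mul_left h11 (by positivity)

lemma grH2 {m q R y u w k g D : ℝ} (hy : 100 ≤ y) (hR : y ≤ R) (hm1 : y < m + 1) (hmy : m ≤ y)
    (hq0 : 0 ≤ q) (hum : 2 * m * u = D + 5 * R) (hu2 : u ≤ 2 * R)
    (hwu : w ≤ u) (hwk : g ≤ 4 * m * (w - k)) (hq2 : 20 * m * R ≤ (q + 1) * g) :
    2 * (q + 1) * (k + 1) + (2 * m - 1 - 2 * q) * (w + 1) ≤ D + 2 := by
  have hm0 : 0 < m := by linarith
  have h1 : 2 * (q + 1) * (k + 1) + (2 * m - 1 - 2 * q) * (w + 1) =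
      (2 * m + 1) * (w + 1) - 2 * (q + 1) * (w - k) := by ring
  rw [h1]
  have h2 : (2 * m + 1) * (w + 1) ≤ (2 * m + 1) * (u + 1) :=
    mul_le_mul_of_nonneg_left (by linarith) (by positivity)
  have h3 : 10 * R ≤ 2 * (q + 1) * (w - k) := by
    have h4 : (2 * m) * (10 * R) ≤ (2 * m) * (2 * (q + 1) * (w - k)) := by
      have h5 : (2 * m) * (2 * (q + 1) * (w - k)) = (q + 1) * (4 * m * (w - k)) := by ring
      rw [h5]
      have h6 : (q + 1) * g ≤ (q + 1) * (4 * m * (w - k)) :=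
        mul_le_mul_of_nonneg_left hwk (by linarith)
      linarith
    exact le_of_mul_le_mul_left h4 (by positivity)
  have h7 : (2 * m + 1) * (u + 1) = 2 * m * u + 2 * m + u + 1 := by ring
  rw [h7, hum] at h2
  linarith

lemma grH3 {m R y u w k s p D : ℝ} (hy : 100 ≤ y) (hR : y ≤ R) (hm1 : y < m + 1) (hmy : m ≤ y)
    (hum : 2 * m * u = D + 5 * R) (hu2 : u ≤ 2 * R)
    (hwu : w ≤ u) (hku : 2 * m * k ≤ s + 30 * R) (hp : s / 2 + 1000 * R ≤ p) :
    m * (k + 1) + (2 * m + 1) * (w + 1) ≤ D + p + 2 := by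
  have hm0 : 0 < m := by linarith
  have h2 : (2 * m + 1) * (w + 1) ≤ (2 * m + 1) * (u + 1) :=
    mul_le_mul_of_nonneg_left (by linarith) (by positivity)
  have h7 : (2 * m + 1) * (u + 1) = 2 * m * u + 2 * m + u + 1 := by ring
  rw [h7, hum] at h2
  have h8 : m * (k + 1) = 2 * m * k / 2 + m := by ring
  rw [h8]
  linarith

lemma grH4 {q R y u w k s g p D : ℝ} (hy : 100 ≤ y) (hR : y ≤ R)
    (hq0 : 0 ≤ q) (hu2 : u ≤ 2 * R) (hk0 : 0 ≤ k)
    (hwu : w ≤ u) (hp : s / 2 + 1000 * R ≤ p) (hs0 : 0 ≤ s) (hg : s + g = D)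
    (hq1 : q * g ≤ 20 * D + g) (hg0 : 0 < g) (hg2 : 1000 * (D * R) ≤ g ^ 2) :
    (2 * q + 1) * (w + 1) ≤ p - 1 + (q + 1) * (k + 1) := by
  have hR0 : 0 < R := by linarith
  have h1 : 0 ≤ (q + 1) * (k + 1) := by positivity
  have h2 : (2 * q + 1) * (w + 1) ≤ (2 * q + 1) * (3 * R) :=
    mul_le_mul_of_nonneg_left (by linarith) (by positivity)
  suffices h : (2 * q + 1) * (3 * R) ≤ p - 1 by linarith
  -- q R ≤ s/16 + 100 R
  have h3 : 6 * (q * R) ≤ s / 2 + 300 * R := by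
    have h4 : 6 * (q * R) * g ≤ (s / 2 + 300 * R) * g := by
      have h5 : 6 * (q * R) * g = 6 * R * (q * g) := by ring
      rw [h5]
      have h6 : 6 * R * (q * g) ≤ 6 * R * (20 * D + g) :=
        mul_le_mul_of_nonneg_left hq1 (by positivity)
      refine h6.trans ?_
      -- 120 R D + 6 R g ≤ s g/2 + 300 R g
      have hD : D = s + g := hg.symm
      rcases le_total s g with hsg | hsg
      · have h7 : R * D ≤ R * (2 * g) := mul_le_mul_of_nonneg_left (by linarith) hR0.le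
        have h8 : 0 ≤ s * g := by positivity
        nlinarith
      · -- g ≤ s : D R ≤ g²/1000 ≤ s g / 1000
        have h7 : g ^ 2 ≤ s * g := by nlinarith
        have h8 : 0 ≤ R * g := by positivity
        nlinarith
    exact le_of_mul_le_mul_right h4 hg0
  linarith

lemma gr_exp {y L D m x x' s' : ℝ} (hy : 100 ≤ y) (hL : 1 ≤ L) (hLD : L = Real.log D)
    (hyL : y ^ 3 * L = D) (hmy : m ≤ y) (hm0 : 0 < m)
    (hx : x = 5 / y) (hx2 : x' ^ 2 * s' = 24 * y * L) :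
    4 * (2 * m * Real.exp (-(x ^ 2 * D / (3 * (2 * m)))) +
      2 * m * Real.exp (-(x' ^ 2 * s' / (3 * (2 * m))))) * (D * D) ≤ 1 := by
  have hy0 : 0 < y := by linarith
  have hyD : y ^ 3 ≤ D := by
    rw [← hyL]
    nlinarith [pow_pos hy0 3]
  have hD0 : 0 < D := lt_of_lt_of_le (by positivity) hyD
  have e1 : Real.exp (-(4 * L)) = (D ^ 4)⁻¹ := by
    rw [Real.exp_neg, hLD]
    congr 1
    rw [show (4 : ℝ) * Real.log D = ((4 : ℕ) : ℝ) * Real.log D by norm_num, ← Real.log_pow,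
      Real.exp_log (by positivity)]
  have h1 : Real.exp (-(x ^ 2 * D / (3 * (2 * m)))) ≤ (D ^ 4)⁻¹ := by
    rw [← e1]
    apply Real.exp_le_exp.2
    have h2 : 4 * L ≤ x ^ 2 * D / (3 * (2 * m)) := by
      rw [le_div_iff₀ (by positivity), hx, ← hyL]
      have h3 : (5 / y) ^ 2 * (y ^ 3 * L) = 25 * (y * L) := by field_simp; norm_num
      rw [h3]
      have : m * L ≤ y * L := mul_le_mul_of_nonneg_right hmy (by linarith)
      nlinarith
    linarith
  have h2 : Real.exp (-(x' ^ 2 * s' / (3 * (2 * m)))) ≤ (D ^ 4)⁻¹ := by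
    rw [← e1]
    apply Real.exp_le_exp.2
    have h2 : 4 * L ≤ x' ^ 2 * s' / (3 * (2 * m)) := by
      rw [le_div_iff₀ (by positivity), hx2]
      have : m * L ≤ y * L := mul_le_mul_of_nonneg_right hmy (by linarith)
      nlinarith
    linarith
  have h3 : 4 * (2 * m * Real.exp (-(x ^ 2 * D / (3 * (2 * m)))) +
      2 * m * Real.exp (-(x' ^ 2 * s' / (3 * (2 * m))))) * (D * D) ≤
      4 * (2 * m * (D ^ 4)⁻¹ + 2 * m * (D ^ 4)⁻¹) * (D * D) := by gcongr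
  refine h3.trans ?_
  have h4 : 4 * (2 * m * (D ^ 4)⁻¹ + 2 * m * (D ^ 4)⁻¹) * (D * D) = 16 * m / D ^ 2 := by
    field_simp; norm_num
  rw [h4, div_le_one (by positivity)]
  have h5 : 1 ≤ y ^ 3 := one_le_pow₀ (by linarith)
  have h6 : 16 * y ≤ y ^ 3 := by nlinarith [mul_pos hy0 hy0]
  have h7 : D * 1 ≤ D * D := mul_le_mul_of_nonneg_left (h5.trans hyD) hD0.le
  nlinarith

/-- numerical facts -/
lemma num_facts {D s y L R z g : ℝ} (hs0 : 0 ≤ s) (hL1 : 1 ≤ L) (hyL : y ^ 3 * L = D)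
    (hR : R = y ^ 2 * L) (hy : 1000000 ≤ y) (hz0 : 0 < z) (hz : z ^ 2 = D * R)
    (hg : s + g = D) (hgz : 1000 * z ≤ g) :
    0 < R ∧ y * R = D ∧ y ≤ R ∧ 0 < D ∧ g ≤ D ∧ 1000 * R ≤ g ∧ 1000 * (D * R) ≤ g ^ 2 ∧
      1000 * D ^ 2 ≤ y * g ^ 2 ∧ 1000000 * D ≤ y * g ∧ y * L ≤ R := by
  have hy0 : 0 < y := by linarith
  have hL0 : 0 < L := by linarith
  have hR0 : 0 < R := by rw [hR]; positivity
  have hyR : y * R = D := by rw [hR, ← hyL]; ring
  have hyR' : y ≤ R := by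
    rw [hR]
    have h1 : y * 1 ≤ y * (y * L) := by
      apply mul_le_mul_of_nonneg_left _ hy0.le
      nlinarith
    linarith
  have hDpos : 0 < D := by rw [← hyR]; positivity
  have hgD : g ≤ D := by linarith
  have hRz : 1000 * R ≤ z := by
    have h1 : z * (1000 * R) ≤ z * z := by
      have h2 : z * z = D * R := by rw [← hz]; ring
      rw [h2]
      have h3 : 1000 * z * R ≤ D * R := mul_le_mul_of_nonneg_right (hgz.trans hgD) hR0.le
      linarith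
    exact le_of_mul_le_mul_left h1 hz0
  have hg0 : 0 < g := by linarith
  have hgR : 1000 * R ≤ g := by linarith
  have hg2 : 1000000 * (D * R) ≤ g ^ 2 := by
    have : (1000 * z) ^ 2 ≤ g ^ 2 := pow_le_pow_left₀ (by positivity) hgz 2
    rw [mul_pow, hz] at this
    linarith
  have hDR0 : 0 < D * R := by positivity
  have hg3 : 1000000 * D ^ 2 ≤ y * g ^ 2 := by
    have h1 : y * (1000000 * (D * R)) ≤ y * g ^ 2 := mul_le_mul_of_nonneg_left hg2 hy0.le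
    have h2 : y * (1000000 * (D * R)) = 1000000 * (D * (y * R)) := by ring
    rw [h2, hyR] at h1
    linarith
  have hD2 : 0 ≤ D ^ 2 := by positivity
  refine ⟨hR0, hyR, hyR', hDpos, hgD, hgR, by linarith, by linarith, ?_, ?_⟩
  · have h2 : 1000000 * D * D ≤ y * g * D := by
      have h3 : y * g * g ≤ y * g * D := mul_le_mul_of_nonneg_left hgD (by positivity)
      linarith
    exact le_of_mul_le_mul_right h2 hDpos
  · rw [hR]
    have h1 : y * L * 1 ≤ y * L * y := by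
      apply mul_le_mul_of_nonneg_left _ (by positivity)
      linarith
    linarith

/-- choice of `q` -/
lemma choose_q {D y R g m : ℝ} (hy : 1000000 ≤ y) (hm0 : 0 < m) (hmy : m ≤ y) (hR0 : 0 < R)
    (hg0 : 0 < g) (hyR : y * R = D) (hDyg : 1000000 * D ≤ y * g) :
    ∃ q : ℕ, 20 * m * R ≤ ((q : ℝ) + 1) * g ∧ (q : ℝ) * g ≤ 20 * D + g ∧ 8 * (q : ℝ) + 8 ≤ y := by
  obtain ⟨q, hq⟩ : ∃ q : ℕ, q = ⌈20 * m * R / g⌉₊ := ⟨_, rfl⟩
  have hq1 : (q : ℝ) * g ≤ 20 * D + g := by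
    have h1 : (q : ℝ) < 20 * m * R / g + 1 := by rw [hq]; exact Nat.ceil_lt_add_one (by positivity)
    have h2 : (q : ℝ) * g ≤ (20 * m * R / g + 1) * g := mul_le_mul_of_nonneg_right h1.le hg0.le
    have h3 : (20 * m * R / g + 1) * g = 20 * (m * R) + g := by field_simp
    rw [h3] at h2
    have h4 : m * R ≤ D := by rw [← hyR]; exact mul_le_mul_of_nonneg_right hmy hR0.le
    linarith
  refine ⟨q, ?_, hq1, ?_⟩
  · have h1 : 20 * m * R / g ≤ q := by rw [hq]; exact Nat.le_ceil _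
    rw [div_le_iff₀ hg0] at h1
    linarith
  · have h4 : (8 * (q : ℝ) + 8) * g ≤ y * g := by
      have h5 : 1000000 * g ≤ y * g := mul_le_mul_of_nonneg_right hy hg0.le
      have h6 : (8 * (q : ℝ) + 8) * g = 8 * (q * g) + 8 * g := by ring
      rw [h6]
      linarith
    exact le_of_mul_le_mul_right h4 hg0

/-- choice of the deviation for the back-neighbours -/
lemma choose_x' {D y L R s' : ℝ} (hy0 : 0 < y) (hL0 : 0 < L) (hR0 : 0 < R)
    (hyL : y ^ 3 * L = D) (hR : R = y ^ 2 * L) (hs'2 : 24 * y * L ≤ s') (hs'D : s' ≤ D) :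
    ∃ x' : ℝ, 0 ≤ x' ∧ x' ≤ 1 ∧ x' ^ 2 * s' = 24 * y * L ∧ x' * s' ≤ 5 * R := by
  have hs'0 : 0 < s' := lt_of_lt_of_le (by positivity) hs'2
  obtain ⟨x', hx'⟩ : ∃ x' : ℝ, x' = Real.sqrt (24 * y * L / s') := ⟨_, rfl⟩
  have hx'2 : x' ^ 2 * s' = 24 * y * L := by
    rw [hx', Real.sq_sqrt (by positivity)]; field_simp
  refine ⟨x', by rw [hx']; exact Real.sqrt_nonneg _, ?_, hx'2, ?_⟩
  · rw [hx', Real.sqrt_le_one, div_le_one hs'0]
    exact hs'2
  · have h1 : (x' * s') ^ 2 ≤ (5 * R) ^ 2 := by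
      have h2 : (x' * s') ^ 2 = (x' ^ 2 * s') * s' := by ring
      rw [h2, hx'2]
      have h3 : 24 * y * L * s' ≤ 24 * y * L * D :=
        mul_le_mul_of_nonneg_left hs'D (by positivity)
      have h4 : 24 * y * L * D = 24 * R ^ 2 := by rw [hR, ← hyL]; ring
      rw [h4] at h3
      have h5 : 0 ≤ R ^ 2 := by positivity
      linarith
    exact le_of_sq_le_sq h1 (by positivity)

/-- the core of the uniform form -/
theorem unif_core {V : Type} [Fintype V] (G : SimpleGraph V) [DecidableRel G.Adj]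
    (D s p : ℕ) (y L R z g : ℝ)
    (hD : ∀ v, G.degree v ≤ D)
    (hdeg : ∀ X : Finset V, X.Nonempty → ∃ v ∈ X, ∃ S : Finset V,
      (∀ u ∈ X, G.Adj v u → u ∈ S) ∧ S.card ≤ s)
    (hL : L = Real.log D) (hL1 : 1 ≤ L) (hyL : y ^ 3 * L = D) (hR : R = y ^ 2 * L)
    (hy : 1000000 ≤ y) (hz0 : 0 < z) (hz : z ^ 2 = D * R) (hg : (s : ℝ) + g = D)
    (hgz : 1000 * z ≤ g) (hp : (s : ℝ) / 2 + 1000 * R ≤ p) :
    TotLab G p (D + 2 * p - 1) := by
  classical
  have hs0 : (0 : ℝ) ≤ s := by positivity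
  obtain ⟨hR0, hyR, hyR', hDpos, hgD, hgR, hg2, hg3, hDyg, hyLR⟩ :=
    num_facts hs0 hL1 hyL hR hy hz0 hz hg hgz
  have hy0 : 0 < y := by linarith
  have hy100 : 100 ≤ y := by linarith
  have hL0 : 0 < L := by linarith
  have hg0 : 0 < g := by linarith
  -- m
  obtain ⟨m, hm⟩ : ∃ m : ℕ, m = ⌊y⌋₊ := ⟨_, rfl⟩
  have hmy : (m : ℝ) ≤ y := by rw [hm]; exact Nat.floor_le hy0.le
  have hm1 : y < m + 1 := by rw [hm]; exact Nat.lt_floor_add_one y
  have hm0 : (0 : ℝ) < m := by linarith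
  obtain ⟨q, hq2, hq1, hqy⟩ := choose_q hy hm0 hmy hR0 hg0 hyR hDyg
  have hq0 : (0 : ℝ) ≤ q := by positivity
  have hm2 : 2 * (q : ℝ) + 1 ≤ m := by linarith
  have hm2' : 2 * q + 1 ≤ m := by exact_mod_cast hm2
  -- x
  obtain ⟨x, hx⟩ : ∃ x : ℝ, x = 5 / y := ⟨_, rfl⟩
  have hx0 : 0 < x := by rw [hx]; positivity
  have hx1 : x ≤ 1 := by rw [hx, div_le_one hy0]; linarith
  have hxD : x * D = 5 * R := by rw [hx, ← hyR]; field_simp
  obtain ⟨u, hu⟩ : ∃ u : ℝ, u = (1 + x) * D / (2 * (m : ℝ)) := ⟨_, rfl⟩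
  have hum : 2 * m * u = D + 5 * R := by
    rw [hu, ← hxD]; field_simp
  have hu0 : 0 < u := by rw [hu]; positivity
  have hu2 : u ≤ 2 * R := grR hy100 hR0 hm1 u D hyR hum
  -- s'
  obtain ⟨s', hs'⟩ : ∃ s' : ℕ, s' = max s ⌈24 * y * L⌉₊ := ⟨_, rfl⟩
  have hceil : (⌈24 * y * L⌉₊ : ℝ) < 24 * y * L + 1 := Nat.ceil_lt_add_one (by positivity)
  have hs'1 : (s' : ℝ) ≤ s + 24 * R + 1 := by
    rw [hs', Nat.cast_max]
    apply max_le
    · linarith
    · linarith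
  have hs's : s ≤ s' := by rw [hs']; exact le_max_left _ _
  have hs'2 : 24 * y * L ≤ s' := by
    rw [hs', Nat.cast_max]
    exact (Nat.le_ceil _).trans (le_max_right _ _)
  have hs'D : (s' : ℝ) ≤ D := by linarith
  obtain ⟨x', hx'0, hx'1, hx'2, hx's⟩ := choose_x' hy0 hL0 hR0 hyL hR hs'2 hs'D
  have hcast : ((2 * m : ℕ) : ℝ) = 2 * (m : ℝ) := by push_cast; ring
  have hD1' : 1 ≤ D := by exact_mod_cast hDpos
  -- the ordering
  obtain ⟨r, hr, hr2⟩ := degen_order G s hdeg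
  choose S hS1 hS2 using hr2
  have hK : 1 ≤ 2 * m := by omega
  have hexp := gr_exp hy100 hL1 hL hyL hmy hm0 hx hx'2
  obtain ⟨t, ht1, ht2, ht3⟩ := partition3 G (2 * m) D s' hK hD1' hD
    (fun v => (G.neighborFinset v).filter (fun u => r u < r v)) (fun v => Finset.filter_subset _ _)
    (by
      intro v
      refine le_trans (Finset.card_le_card ?_) ((hS2 v).trans hs's)
      intro u hu
      rw [mem_filter, SimpleGraph.mem_neighborFinset] at hu
      exact hS1 v u hu.1 hu.2) x x' hx0.le hx1 hx'0 hx'1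
    (by
      rw [hcast]
      push_cast
      exact hexp)
  rw [hcast] at ht2 ht3
  obtain ⟨w, hw⟩ : ∃ w : ℕ, w = ⌊(1 + x) * D / (2 * (m : ℝ))⌋₊ := ⟨_, rfl⟩
  obtain ⟨k', hk'⟩ : ∃ k' : ℕ, k' = ⌊(1 + x') * s' / (2 * (m : ℝ))⌋₊ := ⟨_, rfl⟩
  rw [← hw] at ht2
  rw [← hk'] at ht3
  obtain ⟨c, hc1, hc2⟩ := order_colour G r hr t (fun v => (G.neighborFinset v).filter
    (fun u => r u < r v)) (by
      intro v u h1 h2
      rw [mem_filter, SimpleGraph.mem_neighborFinset]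
      exact ⟨h1, h2⟩) (k' + 1) (fun v y => Nat.lt_succ_of_le (ht3 v y))
  have hwu : (w : ℝ) ≤ u := by rw [hw, hu]; exact Nat.floor_le (by positivity)
  have huw : u ≤ w + 1 := by rw [hw, hu]; exact (Nat.lt_floor_add_one _).le
  have hku : (k' : ℝ) ≤ (1 + x') * s' / (2 * (m : ℝ)) := by
    rw [hk']; exact Nat.floor_le (by positivity)
  have hku2 : 2 * m * (k' : ℝ) ≤ s + 30 * R := by
    rw [le_div_iff₀ (by positivity)] at hku
    linarith
  have hwk := grw (w := w) (k := k') (g := g) (D := D) hy100 hyR' hm1 hmy hum huw hku2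
    hg hgR
  have hkw : k' + 1 ≤ w + 1 := by
    have h1 : (4 * (m : ℝ)) * 0 ≤ (4 * m) * (w - k') := by linarith
    have h2 := le_of_mul_le_mul_left h1 (by positivity)
    have h3 : (k' : ℝ) ≤ w := by linarith
    have : k' ≤ w := by exact_mod_cast h3
    omega
  have hp1 : 1 ≤ p := by
    have : (0 : ℝ) < p := by linarith
    exact_mod_cast this
  have hk0 : (0 : ℝ) ≤ k' := by positivity
  refine structB G m q w (k' + 1) p D hm2' hp1 t ht1 ht2 c hc1 hc2 hkw ?_ ?_ ?_ ?_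
  · have h := grH1 hy100 hyR' hm1 hmy hq0 hyR hu2 hwu hwk hg0 hgD hgR hq1 hg3 hqy
    exact_mod_cast h
  · have h := grH2 hy100 hyR' hm1 hmy hq0 hum hu2 hwu hwk hq2
    exact_mod_cast h
  · have h := grH3 hy100 hyR' hm1 hmy hum hu2 hwu hku2 hp
    exact_mod_cast h
  · have h := grH4 hy100 hyR' hq0 hu2 hk0 hwu hp hs0 hg hq1 hg0 hg2
    exact_mod_cast h

/-- the uniform form -/
theorem unif_main : ∃ C : ℝ, ∀ (V : Type) [Fintype V]
    (G : SimpleGraph V) [DecidableRel G.Adj] (D s p : ℕ), C ≤ D → (∀ v, G.degree v ≤ D) →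
    (∀ X : Finset V, X.Nonempty → ∃ v ∈ X, ∃ S : Finset V,
      (∀ u ∈ X, G.Adj v u → u ∈ S) ∧ S.card ≤ s) →
    (s : ℝ) + C * ((D : ℝ) ^ (5 / 6 : ℝ) * Real.log D ^ (1 / 6 : ℝ)) ≤ D →
    (s : ℝ) / 2 + C * ((D : ℝ) ^ (2 / 3 : ℝ) * Real.log D ^ (1 / 3 : ℝ)) ≤ p →
    TotLab G p (D + 2 * p - 1) := by
  refine ⟨10 ^ 40, ?_⟩
  intro V _ G _ D s p hD hdeg hs h1 h2
  have hD0 : (0 : ℝ) < D := lt_of_lt_of_le (by norm_num) hD
  obtain ⟨L, hL⟩ : ∃ L : ℝ, L = Real.log D := ⟨_, rfl⟩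
  rw [← hL] at h1 h2
  have hL1 : 1 ≤ L := by
    rw [hL, Real.le_log_iff_exp_le hD0]
    have := Real.exp_one_lt_d9
    refine le_trans ?_ hD
    norm_num at this ⊢
    linarith
  have hL0 : 0 < L := by linarith
  obtain ⟨y, hy⟩ : ∃ y : ℝ, y = (D / L) ^ (1 / 3 : ℝ) := ⟨_, rfl⟩
  have hDL : 0 < D / L := by positivity
  have hy0 : 0 < y := by rw [hy]; positivity
  have hy3 : y ^ 3 = D / L := by
    rw [hy, ← Real.rpow_natCast, ← Real.rpow_mul (by positivity)]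
    norm_num
  have hyL : y ^ 3 * L = D := by rw [hy3]; field_simp
  obtain ⟨R, hR⟩ : ∃ R : ℝ, R = (D : ℝ) ^ (2 / 3 : ℝ) * L ^ (1 / 3 : ℝ) := ⟨_, rfl⟩
  have hR0 : 0 < R := by rw [hR]; positivity
  have hRy : R * y = D := by
    rw [hR, hy, Real.div_rpow hD0.le hL0.le]
    have h1 : (D : ℝ) ^ (2 / 3 : ℝ) * (D : ℝ) ^ (1 / 3 : ℝ) = D := by
      rw [← Real.rpow_add hD0]; norm_num
    have h2 : L ^ (1 / 3 : ℝ) ≠ 0 := by positivity
    calc (D : ℝ) ^ (2 / 3 : ℝ) * L ^ (1 / 3 : ℝ) *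
        ((D : ℝ) ^ (1 / 3 : ℝ) / L ^ (1 / 3 : ℝ))
        = ((D : ℝ) ^ (2 / 3 : ℝ) * (D : ℝ) ^ (1 / 3 : ℝ)) * (L ^ (1 / 3 : ℝ) / L ^ (1 / 3 : ℝ)) := by
          ring
      _ = D := by rw [h1, div_self h2, mul_one]
  have hR2 : R = y ^ 2 * L := by
    have : R * y = (y ^ 2 * L) * y := by rw [hRy, ← hyL]; ring
    exact mul_right_cancel₀ hy0.ne' this
  obtain ⟨z, hz⟩ : ∃ z : ℝ, z = (D : ℝ) ^ (5 / 6 : ℝ) * L ^ (1 / 6 : ℝ) := ⟨_, rfl⟩
  have hz0 : 0 < z := by rw [hz]; positivity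
  have hz2 : z ^ 2 = D * R := by
    rw [hz, mul_pow, hR, ← Real.rpow_natCast, ← Real.rpow_natCast, ← Real.rpow_mul hD0.le,
      ← Real.rpow_mul hL0.le, ← mul_assoc]
    have e1 : (D : ℝ) * (D : ℝ) ^ (2 / 3 : ℝ) = (D : ℝ) ^ (5 / 3 : ℝ) := by
      have : (D : ℝ) * (D : ℝ) ^ (2 / 3 : ℝ) = (D : ℝ) ^ (1 : ℝ) * (D : ℝ) ^ (2 / 3 : ℝ) := by
        rw [Real.rpow_one]
      rw [this, ← Real.rpow_add hD0]
      norm_num
    rw [e1]
    norm_num
  -- y is large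
  have hy6 : 1000000 ≤ y := by
    have h3 : L ≤ 2 * Real.sqrt D := by
      have h4 : Real.log (Real.sqrt D) ≤ Real.sqrt D := by
        have := Real.log_le_sub_one_of_pos (Real.sqrt_pos.2 hD0)
        linarith
      have h5 : Real.log (Real.sqrt D) = L / 2 := by rw [Real.log_sqrt hD0.le, hL]
      linarith
    have h6 : (10 : ℝ) ^ 20 ≤ Real.sqrt D := by
      rw [show (10 : ℝ) ^ 20 = Real.sqrt ((10 ^ 20) ^ 2) by rw [Real.sqrt_sq (by positivity)]]
      apply Real.sqrt_le_sqrt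
      refine le_trans ?_ hD
      norm_num
    have h7 : Real.sqrt D * Real.sqrt D = D := Real.mul_self_sqrt hD0.le
    have h8 : (1000000 : ℝ) ^ 3 ≤ y ^ 3 := by
      rw [hy3, le_div_iff₀ hL0]
      have h9 : (10 : ℝ) ^ 20 * Real.sqrt D ≤ D := by
        calc (10 : ℝ) ^ 20 * Real.sqrt D ≤ Real.sqrt D * Real.sqrt D :=
              mul_le_mul_of_nonneg_right h6 (Real.sqrt_nonneg _)
          _ = D := h7
      have h10 : (0 : ℝ) ≤ Real.sqrt D := Real.sqrt_nonneg _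
      linarith
    exact le_of_pow_le_pow_left₀ (by norm_num) hy0.le h8
  rw [← hz] at h1
  rw [← hR] at h2
  refine unif_core G D s p y L R z (D - s) hdeg hs hL hL1 hyL hR2 hy6 hz0 hz2 (by ring) ?_ ?_
  · have h3 : 1000 * z ≤ 10 ^ 40 * z := mul_le_mul_of_nonneg_right (by norm_num) hz0.le
    linarith
  · have h3 : 1000 * R ≤ 10 ^ 40 * R := mul_le_mul_of_nonneg_right (by norm_num) hR0.le
    linarith

end Pool.Agent.TH104.HY
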