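import Mathlib
import Pool.Agent.TH104.HY.C
import Pool.Agent.H238R2.HY.Part
import Pool.Agent.H378R3.CountD

set_option autoImplicit false

/-!
# Triangle-free graphs
-/

namespace Pool.Agent.TH104.HY

open Finset Pool.Agent.H238R2.HY Pool.Agent.H378R3.Col

/-- the condition of the counting theorem -/
lemma tf_cond {η ℓ : ℝ} (hη0 : 0 < η) (hη1 : η < 1) (k w : ℕ) (hk : 2 ≤ k)
    (hℓ : ℓ = Real.log k) (hw : (w : ℝ) ≤ (1 - η) * (k - 1) * ℓ)
    (hA : 4 * ((3 + ℓ) * ℓ) ≤ Real.exp (η * ℓ)) :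
    (3 + (w : ℝ) / k) * w ≤ 1 / 2 * (1 - 1 / 2) * (k : ℝ) ^ 2 * (1 - 1 / (k : ℝ)) ^ w := by
  have hk2 : (2 : ℝ) ≤ k := by exact_mod_cast hk
  have hℓ0 : 0 ≤ ℓ := by rw [hℓ]; exact Real.log_nonneg (by linarith)
  have hk1 : (0 : ℝ) < (k : ℝ) - 1 := by linarith
  have hw0 : (0 : ℝ) ≤ w := by positivity
  have hwk : (w : ℝ) ≤ k * ℓ := by
    refine hw.trans ?_
    apply mul_le_mul_of_nonneg_right _ hℓ0
    nlinarith
  have a1 : (w : ℝ) / k ≤ ℓ := by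
    rw [div_le_iff₀ (by linarith)]
    linarith
  have a2 : (3 + (w : ℝ) / k) * w ≤ (3 + ℓ) * (k * ℓ) := by
    apply mul_le_mul
    · linarith
    · linarith
    · exact hw0
    · linarith
  have a3 := one_sub_inv_pow_ge (k : ℝ) (by linarith) w
  have a4 : Real.exp (-((1 - η) * ℓ)) ≤ Real.exp (-((w : ℝ) / (k - 1))) := by
    apply Real.exp_le_exp.2
    apply neg_le_neg
    rw [div_le_iff₀ hk1]
    linarith
  have a5 : Real.exp (-((1 - η) * ℓ)) ≤ (1 - 1 / (k : ℝ)) ^ w := a4.trans a3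
  have hexp : Real.exp ℓ = k := by rw [hℓ]; exact Real.exp_log (by linarith)
  have a6 : Real.exp (η * ℓ) = k * Real.exp (-((1 - η) * ℓ)) := by
    calc Real.exp (η * ℓ) = Real.exp (ℓ + -((1 - η) * ℓ)) := by congr 1; ring
      _ = Real.exp ℓ * Real.exp (-((1 - η) * ℓ)) := Real.exp_add _ _
      _ = k * Real.exp (-((1 - η) * ℓ)) := by rw [hexp]
  rw [a6] at hA
  calc (3 + (w : ℝ) / k) * w ≤ (3 + ℓ) * (k * ℓ) := a2
    _ = 1 / 4 * k * (4 * ((3 + ℓ) * ℓ)) := by ring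
    _ ≤ 1 / 4 * k * (k * Real.exp (-((1 - η) * ℓ))) :=
        mul_le_mul_of_nonneg_left hA (by linarith)
    _ = 1 / 2 * (1 - 1 / 2) * (k : ℝ) ^ 2 * Real.exp (-((1 - η) * ℓ)) := by ring
    _ ≤ _ := mul_le_mul_of_nonneg_left a5 (by positivity)

/-- colouring the types of a triangle-free graph -/
lemma tf_colour {V : Type} [Fintype V] (G : SimpleGraph V) [DecidableRel G.Adj]
    (htf : ∀ a b c : V, G.Adj a b → G.Adj a c → ¬ G.Adj b c) (t : V → ℕ) (w k : ℕ) (hk : 2 ≤ k)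
    (hw : ∀ v y, ((G.neighborFinset v).filter (fun u => t u = y)).card ≤ w)
    (hcond : (3 + (w : ℝ) / k) * w ≤ 1 / 2 * (1 - 1 / 2) * (k : ℝ) ^ 2 * (1 - 1 / (k : ℝ)) ^ w) :
    ∃ c : V → ℕ, (∀ v, c v < k) ∧ ∀ u v, G.Adj u v → t u = t v → c u ≠ c v := by
  classical
  haveI : NeZero k := ⟨by omega⟩
  have h : ∀ y : ℕ, ∃ ψ : V → Fin k, ∀ u, t u = y → ∀ v, t v = y → G.Adj u v → ψ u ≠ ψ v := by
    intro y
    have hc := count_col G k htf w (1 / 2) (by norm_num) (by norm_num) (by omega)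
      (univ.filter (fun v => t v = y)) (by
        intro v _
        refine le_trans (Finset.card_le_card ?_) (hw v y)
        intro u hu
        simp only [mem_filter, mem_univ, true_and] at hu
        rw [mem_filter, SimpleGraph.mem_neighborFinset]
        exact ⟨hu.2, hu.1⟩) hcond _ (Finset.Subset.refl _)
    have hkR : (2 : ℝ) ≤ k := by exact_mod_cast hk
    have h1 : (0 : ℝ) < 1 - 1 / (k : ℝ) := by
      rw [sub_pos, div_lt_one (by linarith)]; linarith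
    have hpos : (0 : ℝ) < ((1 - 1 / 2) * (k : ℝ)) ^ (univ.filter (fun v => t v = y)).card *
        (1 - 1 / (k : ℝ)) ^ (edg G (univ.filter (fun v => t v = y))).card := by positivity
    have h2 : 0 < (col G k (univ.filter (fun v => t v = y))).card := by
      exact_mod_cast lt_of_lt_of_le hpos hc
    obtain ⟨ψ, hψ⟩ := Finset.card_pos.1 h2
    rw [mem_col] at hψ
    refine ⟨ψ, ?_⟩
    intro u hu v hv huv
    exact hψ.2 u (by simp [hu]) v (by simp [hv]) huv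
  choose ψ hψ using h
  refine ⟨fun v => (ψ (t v) v : ℕ), fun v => (ψ (t v) v).2, ?_⟩
  intro u v huv htt h
  simp only at h
  rw [htt] at h
  exact hψ (t v) u htt v rfl huv (Fin.ext h)

/-- the numerical part of the triangle-free case; `D = exp L` -/
lemma tf_num {ε L D M m x : ℝ} (hε0 : 0 < ε) (hε1 : ε ≤ 1) (hM : M = 8 / ε)
    (hB1 : 10 ^ 4 / ε ^ 2 ≤ L) (hB2 : 10 ^ 4 / ε ^ 2 * L ^ 6 ≤ D) (hm1 : M * L ≤ m)
    (hm2 : m ≤ M * L + 1) (hx : x = 1 / L ^ 2) :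
    10 ^ 4 ≤ L ∧ 0 < m ∧ m ≤ L ^ 2 / 100 ∧ 96 * L ^ 2 * m ^ 2 ≤ D ∧ 16 ≤ ε * L ∧
      8 * L ≤ ε * m ∧ x * D = D / L ^ 2 ∧ 0 < x ∧ x ≤ 1 ∧ 100 * L ≤ ε * (D / (2 * m)) ∧
      24 * m * L * L ^ 4 ≤ D := by
  have hε2 : ε ^ 2 ≤ 1 := by nlinarith
  have hB : (10 : ℝ) ^ 4 ≤ 10 ^ 4 / ε ^ 2 := by
    rw [le_div_iff₀ (by positivity)]; nlinarith
  have hL4 : (10 : ℝ) ^ 4 ≤ L := hB.trans hB1
  have hL0 : 0 < L := by linarith
  have hM0 : 0 < M := by rw [hM]; positivity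
  have hM8 : 8 ≤ M := by rw [hM, le_div_iff₀ hε0]; linarith
  have hm0 : 0 < m := by
    have : 0 < M * L := by positivity
    linarith
  have hML : M * L + 1 ≤ 2 * (M * L) := by nlinarith
  have hm3 : m ≤ 2 * (M * L) := by linarith
  have hεM : ε * M = 8 := by rw [hM]; field_simp
  -- M ≤ L / 1000
  have hMB : 1000 * M ≤ 10 ^ 4 / ε ^ 2 := by
    rw [hM, le_div_iff₀ (by positivity)]
    have : 1000 * (8 / ε) * ε ^ 2 = 8000 * ε := by field_simp; norm_num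
    rw [this]; linarith
  have hML2 : 1000 * M ≤ L := hMB.trans hB1
  have hm4 : m ≤ L ^ 2 / 100 := by nlinarith
  have hB0 : 0 < 10 ^ 4 / ε ^ 2 := by positivity
  have hM2B : M ^ 2 * 156 ≤ 10 ^ 4 / ε ^ 2 := by
    rw [hM, le_div_iff₀ (by positivity)]
    have : (8 / ε) ^ 2 * 156 * ε ^ 2 = 9984 := by field_simp; norm_num
    rw [this]; norm_num
  have hεL : 16 ≤ ε * L := by
    have h1 : ε * (10 ^ 4 / ε ^ 2) ≤ ε * L := mul_le_mul_of_nonneg_left hB1 hε0.le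
    have h2 : ε * (10 ^ 4 / ε ^ 2) = 10 ^ 4 / ε := by field_simp
    rw [h2] at h1
    have h3 : (10 : ℝ) ^ 4 ≤ 10 ^ 4 / ε := by rw [le_div_iff₀ hε0]; linarith
    linarith
  have hL6 : M ^ 2 * 156 * L ^ 6 ≤ D :=
    (mul_le_mul_of_nonneg_right hM2B (by positivity)).trans hB2
  have hL2 : 1 ≤ L ^ 2 := one_le_pow₀ (by linarith)
  have hm2L : m ^ 2 ≤ 4 * (M ^ 2 * L ^ 2) := by
    have := pow_le_pow_left₀ hm0.le hm3 2
    linarith [this, show (2 * (M * L)) ^ 2 = 4 * (M ^ 2 * L ^ 2) by ring]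
  have h96 : 96 * L ^ 2 * m ^ 2 ≤ D := by
    refine le_trans ?_ hL6
    have h1 : 96 * L ^ 2 * m ^ 2 ≤ 96 * L ^ 2 * (4 * (M ^ 2 * L ^ 2)) :=
      mul_le_mul_of_nonneg_left hm2L (by positivity)
    refine h1.trans ?_
    have h2 : 96 * L ^ 2 * (4 * (M ^ 2 * L ^ 2)) = M ^ 2 * L ^ 4 * 384 := by ring
    have h3 : M ^ 2 * 156 * L ^ 6 = M ^ 2 * L ^ 4 * (156 * L ^ 2) := by ring
    rw [h2, h3]
    apply mul_le_mul_of_nonneg_left _ (by positivity)
    nlinarith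
  have hD0 : 0 < D := lt_of_lt_of_le (by positivity) h96
  refine ⟨hL4, hm0, hm4, h96, hεL, ?_, ?_, by rw [hx]; positivity, ?_, ?_, ?_⟩
  · have h1 : ε * (M * L) ≤ ε * m := mul_le_mul_of_nonneg_left hm1 hε0.le
    have h2 : ε * (M * L) = 8 * L := by rw [← mul_assoc, hεM]
    linarith
  · rw [hx]; ring
  · rw [hx, div_le_one (by positivity)]; exact hL2
  · rw [← mul_div_assoc, le_div_iff₀ (by positivity)]
    -- 100 L * 2 m ≤ ε D
    have h1 : 100 * L * (2 * m) ≤ 100 * L * (2 * (2 * (M * L))) :=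
      mul_le_mul_of_nonneg_left (by linarith) (by positivity)
    refine h1.trans ?_
    have h2 : ε * (10 ^ 4 / ε ^ 2 * L ^ 6) ≤ ε * D := mul_le_mul_of_nonneg_left hB2 hε0.le
    refine le_trans ?_ h2
    have h3 : ε * (10 ^ 4 / ε ^ 2 * L ^ 6) = 10 ^ 4 / ε * L ^ 6 := by field_simp
    rw [h3]
    have h4 : 1250 * M = 10 ^ 4 / ε := by rw [hM]; ring
    rw [← h4]
    have h5 : 100 * L * (2 * (2 * (M * L))) = M * L ^ 2 * 400 := by ring
    have h6 : 1250 * M * L ^ 6 = M * L ^ 2 * (1250 * L ^ 4) := by ring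
    rw [h5, h6]
    apply mul_le_mul_of_nonneg_left _ (by positivity)
    have : 1 ≤ L ^ 4 := one_le_pow₀ (by linarith)
    linarith
  · refine le_trans ?_ hL6
    have h1 : 24 * m * L * L ^ 4 ≤ 24 * (2 * (M * L)) * L * L ^ 4 := by gcongr
    refine h1.trans ?_
    have h2 : 24 * (2 * (M * L)) * L * L ^ 4 = M * L ^ 6 * 48 := by ring
    have h3 : M ^ 2 * 156 * L ^ 6 = M * L ^ 6 * (156 * M) := by ring
    rw [h2, h3]
    apply mul_le_mul_of_nonneg_left _ (by positivity)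
    linarith

end Pool.Agent.TH104.HY
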