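import Mathlib
import Pool.Agent.TH104.HY.H

set_option autoImplicit false

/-!
# Triangle-free graphs: the theorem
-/

namespace Pool.Agent.TH104.HY

open Finset Pool.Agent.H238R2.HY

lemma tf_exp {L D m x : ℝ} (hL : L = Real.log D) (hD0 : 0 < D) (hD1 : 1 ≤ D) (hm0 : 0 < m)
    (hL0 : 0 < L) (hx : x = 1 / L ^ 2) (h24 : 24 * m * L * L ^ 4 ≤ D) (h8 : 8 * m ≤ D) :
    4 * (2 * m * Real.exp (-(x ^ 2 * D / (3 * (2 * m))))) * (D * D) ≤ 1 := by
  have e1 : Real.exp (-(4 * L)) = (D ^ 4)⁻¹ := by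
    rw [Real.exp_neg, hL]
    congr 1
    rw [show (4 : ℝ) * Real.log D = ((4 : ℕ) : ℝ) * Real.log D by norm_num, ← Real.log_pow,
      Real.exp_log (by positivity)]
  have h1 : Real.exp (-(x ^ 2 * D / (3 * (2 * m)))) ≤ (D ^ 4)⁻¹ := by
    rw [← e1]
    apply Real.exp_le_exp.2
    have h2 : 4 * L ≤ x ^ 2 * D / (3 * (2 * m)) := by
      rw [le_div_iff₀ (by positivity), hx]
      have h3 : (1 / L ^ 2) ^ 2 * D = D / L ^ 4 := by field_simp
      rw [h3, le_div_iff₀ (by positivity)]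
      linarith
    linarith
  have h3 : 4 * (2 * m * Real.exp (-(x ^ 2 * D / (3 * (2 * m))))) * (D * D) ≤
      4 * (2 * m * (D ^ 4)⁻¹) * (D * D) := by gcongr
  refine h3.trans ?_
  have h4 : 4 * (2 * m * (D ^ 4)⁻¹) * (D * D) = 8 * m / D ^ 2 := by
    field_simp; norm_num
  rw [h4, div_le_one (by positivity)]
  nlinarith

/-- the bound for the colouring of the types -/
lemma tf_w {ε η L ℓ Y x w k : ℝ} (hε0 : 0 < ε) (hε1 : ε ≤ 1) (hη : η = ε / 16)
    (hY0 : 0 < Y) (hY : 100 * L ≤ ε * Y) (hL0 : 0 < L)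
    (hx : x ≤ ε / 16) (hw : w ≤ (1 + x) * Y) (hk : (1 + ε / 2) * Y / L ≤ k)
    (hℓ : (1 - η) * L ≤ ℓ) : w ≤ (1 - η) * (k - 1) * ℓ := by
  have h1 : 0 < 1 - η := by rw [hη]; linarith
  have h2 : (1 + ε / 2) * Y ≤ k * L := by rwa [div_le_iff₀ hL0] at hk
  have hLY : L ≤ Y := by nlinarith
  have hkL : 0 ≤ (k - 1) * L := by nlinarith
  have hk1 : 0 ≤ k - 1 := by
    have : 0 * L ≤ (k - 1) * L := by linarith
    exact le_of_mul_le_mul_right this hL0
  have h3 : (1 - η) * (k - 1) * ((1 - η) * L) ≤ (1 - η) * (k - 1) * ℓ :=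
    mul_le_mul_of_nonneg_left hℓ (by positivity)
  have h4 : (1 - η) * (k - 1) * ((1 - η) * L) = (1 - η) ^ 2 * ((k - 1) * L) := by ring
  rw [h4] at h3
  have h5 : 1 - ε / 8 ≤ (1 - η) ^ 2 := by rw [hη]; nlinarith
  have h6 : (1 - ε / 8) * ((k - 1) * L) ≤ (1 - η) ^ 2 * ((k - 1) * L) :=
    mul_le_mul_of_nonneg_right h5 hkL
  have h7 : (1 + ε / 2) * Y - L ≤ (k - 1) * L := by linarith
  have h8 : (1 - ε / 8) * ((1 + ε / 2) * Y - L) ≤ (1 - ε / 8) * ((k - 1) * L) :=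
    mul_le_mul_of_nonneg_left h7 (by linarith)
  have h9 : (1 - ε / 8) * ((1 + ε / 2) * Y - L) =
      Y + 3 / 8 * (ε * Y) - (ε * Y) * (ε / 16) - L + ε * L / 8 := by ring
  have h10 : (ε * Y) * (ε / 16) ≤ (ε * Y) * (1 / 16) :=
    mul_le_mul_of_nonneg_left (by linarith) (by positivity)
  have h11 : (1 + x) * Y ≤ Y + (ε * Y) / 16 := by
    have : x * Y ≤ ε / 16 * Y := mul_le_mul_of_nonneg_right hx hY0.le
    linarith
  have h12 : 0 < ε * L := by positivity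
  have h13 : 0 < ε * Y := by positivity
  linarith

lemma tf_H2 {ε L D m x Y w k : ℝ} (hε1 : ε ≤ 1) (hL : 10 ^ 4 ≤ L) (hm0 : 1 ≤ m)
    (hm2 : m ≤ L ^ 2 / 100) (h96 : 96 * L ^ 2 * m ^ 2 ≤ D) (hxD : x * D = D / L ^ 2)
    (hY : 2 * m * Y = D) (hY0 : 0 < Y) (hw : w ≤ (1 + x) * Y) (hw2 : Y ≤ w + 1)
    (hk : k ≤ (1 + ε / 2) * Y / L + 1) :
    2 * (0 + 1) * k + (2 * m - 1 - 2 * 0) * (w + 1) ≤ D + 2 := by
  have hL0 : 0 < L := by linarith
  have h1 : 2 * m * (w + 1) ≤ D + x * D + 2 * m := by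
    have h2 : 2 * m * (w + 1) ≤ 2 * m * ((1 + x) * Y + 1) :=
      mul_le_mul_of_nonneg_left (by linarith) (by linarith)
    have h3 : 2 * m * ((1 + x) * Y + 1) = 2 * m * Y + x * (2 * m * Y) + 2 * m := by ring
    rw [h3, hY] at h2
    exact h2
  have h4 : x * D ≤ Y / 50 := by
    rw [hxD, div_le_iff₀ (by positivity), ← hY]
    nlinarith
  have h5 : 2 * m ≤ Y / 24 := by
    have h6 : 2 * m * (2 * m) ≤ 2 * m * (Y / 24) := by
      have h7 : 2 * m * (Y / 24) = D / 24 := by rw [← hY]; ring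
      rw [h7]
      have h8 : m ^ 2 * 96 ≤ m ^ 2 * (96 * L ^ 2) := by
        apply mul_le_mul_of_nonneg_left _ (by positivity)
        nlinarith
      nlinarith
    exact le_of_mul_le_mul_left h6 (by linarith)
  have h9 : (1 + ε / 2) * Y / L ≤ Y / 100 := by
    rw [div_le_iff₀ hL0]
    nlinarith
  linarith

lemma tf_H3 {ε L D m x Y w k p : ℝ} (hε0 : 0 < ε) (hε1 : ε ≤ 1) (hL : 10 ^ 4 ≤ L) (hm0 : 1 ≤ m)
    (h96 : 96 * L ^ 2 * m ^ 2 ≤ D) (hεL : 16 ≤ ε * L)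
    (hεm : 8 * L ≤ ε * m) (hxD : x * D = D / L ^ 2) (hx1 : x ≤ 1)
    (hY : 2 * m * Y = D) (hY0 : 0 < Y) (hw : w ≤ (1 + x) * Y)
    (hk : k ≤ (1 + ε / 2) * Y / L + 1) (hp : (1 / 2 + ε) * (D / L) ≤ p) :
    m * k + (2 * m + 1) * (w + 1) ≤ D + p + 2 := by
  have hL0 : 0 < L := by linarith
  obtain ⟨Q, hQ⟩ : ∃ Q : ℝ, Q = D / L := ⟨_, rfl⟩
  have hQL : Q * L = D := by rw [hQ]; field_simp
  have hD0 : 0 < D := by rw [← hY]; positivity
  have hQ0 : 0 < Q := by rw [hQ]; positivity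
  rw [← hQ] at hp
  -- m Y / L = Q / 2
  have h1 : m * k ≤ (1 + ε / 2) * (Q / 2) + m := by
    have h2 : m * k ≤ m * ((1 + ε / 2) * Y / L + 1) := mul_le_mul_of_nonneg_left hk (by linarith)
    have h3 : m * ((1 + ε / 2) * Y / L + 1) = (1 + ε / 2) * ((2 * m * Y) / L / 2) + m := by
      field_simp
    rw [h3, hY, ← hQ] at h2
    exact h2
  have h4 : (2 * m + 1) * (w + 1) ≤ (2 * m + 1) * ((1 + x) * Y + 1) :=
    mul_le_mul_of_nonneg_left (by linarith) (by linarith)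
  have h5 : (2 * m + 1) * ((1 + x) * Y + 1) =
      2 * m * Y + x * (2 * m * Y) + 2 * m + (1 + x) * Y + 1 := by ring
  rw [h5, hY, hxD] at h4
  have h6 : D / L ^ 2 ≤ ε / 16 * Q := by
    rw [div_le_iff₀ (by positivity)]
    have : ε / 16 * Q * L ^ 2 = (Q * L) * (ε * L / 16) := by ring
    rw [this, hQL]
    nlinarith
  have h7 : 2 * Y ≤ ε / 8 * Q := by
    have h8 : m * (2 * Y) ≤ m * (ε / 8 * Q) := by
      have e1 : m * (2 * Y) = Q * L := by rw [hQL, ← hY]; ring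
      have e2 : m * (ε / 8 * Q) = Q * (ε * m / 8) := by ring
      rw [e1, e2]
      exact mul_le_mul_of_nonneg_left (by linarith) hQ0.le
    exact le_of_mul_le_mul_left h8 (by linarith)
  have h9 : (1 + x) * Y ≤ 2 * Y := mul_le_mul_of_nonneg_right (by linarith) hY0.le
  have h10 : 3 * m ≤ Y / 8 := by
    have h11 : 2 * m * (3 * m) ≤ 2 * m * (Y / 8) := by
      have e1 : 2 * m * (Y / 8) = D / 8 := by rw [← hY]; ring
      rw [e1]
      have h12 : m ^ 2 * 96 ≤ m ^ 2 * (96 * L ^ 2) := by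
        apply mul_le_mul_of_nonneg_left _ (by positivity)
        nlinarith
      nlinarith
    exact le_of_mul_le_mul_left h11 (by linarith)
  linarith

set_option maxHeartbeats 1000000 in
theorem tf_main (ε : ℝ) (hε : 0 < ε) : ∃ D₀ : ℕ, ∀ (V : Type) [Fintype V]
    (G : SimpleGraph V) [DecidableRel G.Adj] (D p : ℕ), D₀ ≤ D → (∀ v, G.degree v ≤ D) →
    (∀ a b c : V, G.Adj a b → G.Adj a c → ¬ G.Adj b c) →
    (1 / 2 + ε) * (D / Real.log D) ≤ p → TotLab G p (D + 2 * p - 1) := by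
  obtain ⟨e, he⟩ : ∃ e : ℝ, e = min ε 1 := ⟨_, rfl⟩
  have he0 : 0 < e := by rw [he]; exact lt_min hε (by norm_num)
  have heε : e ≤ ε := by rw [he]; exact min_le_left _ _
  have he1 : e ≤ 1 := by rw [he]; exact min_le_right _ _
  obtain ⟨η, hη⟩ : ∃ η : ℝ, η = e / 16 := ⟨_, rfl⟩
  have hη0 : 0 < η := by rw [hη]; positivity
  have hη1 : η ≤ 1 / 16 := by rw [hη]; linarith
  have hB0 : (0 : ℝ) < 10 ^ 4 / e ^ 2 := by positivity
  have hB4 : (10 : ℝ) ^ 4 ≤ 10 ^ 4 / e ^ 2 := by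
    rw [le_div_iff₀ (by positivity)]
    have : e ^ 2 ≤ 1 := pow_le_one₀ he0.le he1
    linarith
  have h1 := (isLittleO_pow_exp_pos_mul_atTop 6 (show 0 < η / 2 by positivity)).bound
    (show (0 : ℝ) < (10 ^ 4 / e ^ 2)⁻¹ by positivity)
  have h2 : Filter.Tendsto (fun n : ℕ => Real.log (n : ℝ)) Filter.atTop Filter.atTop :=
    Real.tendsto_log_atTop.comp tendsto_natCast_atTop_atTop
  have h3 := h2.eventually (h1.and (Filter.eventually_ge_atTop (10 ^ 4 / e ^ 2 : ℝ)))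
  obtain ⟨N, hN⟩ := Filter.eventually_atTop.1 h3
  refine ⟨max N 1, ?_⟩
  intro V _ G _ D p hD hdeg htf hp
  classical
  obtain ⟨h4, hB1⟩ := hN D (le_trans (le_max_left _ _) hD)
  have hD1 : 1 ≤ D := le_trans (le_max_right _ _) hD
  have hD1r : (1 : ℝ) ≤ D := by exact_mod_cast hD1
  have hD0 : (0 : ℝ) < D := by linarith
  obtain ⟨L, hL⟩ : ∃ L : ℝ, L = Real.log (D : ℝ) := ⟨_, rfl⟩
  rw [← hL] at h4 hB1 hp
  have hL0 : 0 < L := lt_of_lt_of_le hB0 hB1
  have hexpL : Real.exp L = D := by rw [hL]; exact Real.exp_log hD0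
  have hB2' : 10 ^ 4 / e ^ 2 * L ^ 6 ≤ Real.exp (η / 2 * L) := by
    have h5 : L ^ 6 ≤ (10 ^ 4 / e ^ 2)⁻¹ * Real.exp (η / 2 * L) := by
      simpa [abs_of_nonneg (Real.exp_pos (η / 2 * L)).le, abs_of_nonneg hL0.le] using h4
    have h6 := mul_le_mul_of_nonneg_left h5 hB0.le
    rwa [← mul_assoc, mul_inv_cancel₀ hB0.ne', one_mul] at h6
  have hB2 : 10 ^ 4 / e ^ 2 * L ^ 6 ≤ D := by
    refine hB2'.trans ?_
    rw [← hexpL]
    apply Real.exp_le_exp.2
    have : η / 2 * L ≤ 1 * L := mul_le_mul_of_nonneg_right (by linarith) hL0.le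
    linarith
  obtain ⟨M, hM⟩ : ∃ M : ℝ, M = 8 / e := ⟨_, rfl⟩
  have hM0 : 0 < M := by rw [hM]; positivity
  obtain ⟨m, hm⟩ : ∃ m : ℕ, m = ⌈M * L⌉₊ := ⟨_, rfl⟩
  have hm1 : M * L ≤ m := by rw [hm]; exact Nat.le_ceil _
  have hm2 : (m : ℝ) ≤ M * L + 1 := by rw [hm]; exact (Nat.ceil_lt_add_one (by positivity)).le
  obtain ⟨x, hx⟩ : ∃ x : ℝ, x = 1 / L ^ 2 := ⟨_, rfl⟩
  obtain ⟨hL4, hm0, hm3, h96, heL, hem, hxD, hx0, hx1, hYe, h24⟩ :=
    tf_num he0 he1 hM hB1 hB2 hm1 hm2 hx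
  obtain ⟨Y, hY'⟩ : ∃ Y : ℝ, Y = D / (2 * m) := ⟨_, rfl⟩
  rw [← hY'] at hYe
  have hY : 2 * m * Y = D := by rw [hY']; field_simp
  have hY0 : 0 < Y := by rw [hY']; positivity
  have hm1' : (1 : ℝ) ≤ m := by
    have : 0 < m := by exact_mod_cast hm0
    exact_mod_cast this
  have hmN : 1 ≤ m := by exact_mod_cast hm1'
  have hL2 : 1 ≤ L ^ 2 := one_le_pow₀ (by linarith)
  have h8 : 8 * (m : ℝ) ≤ D := by
    refine le_trans ?_ h96
    have h9 : (m : ℝ) * 8 ≤ m * (96 * L ^ 2 * m) := by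
      apply mul_le_mul_of_nonneg_left _ hm0.le
      have h10 : 1 * 1 ≤ L ^ 2 * (m : ℝ) := mul_le_mul hL2 hm1' (by norm_num) (by positivity)
      linarith
    linarith [h9, show (m : ℝ) * (96 * L ^ 2 * m) = 96 * L ^ 2 * (m : ℝ) ^ 2 by ring]
  have hcast : ((2 * m : ℕ) : ℝ) = 2 * (m : ℝ) := by push_cast; ring
  have hexp := tf_exp hL hD0 hD1r hm0 hL0 hx h24 h8
  obtain ⟨t, ht1, ht2⟩ := partition G (2 * m) D (by omega) hD1 hdeg x hx0.le hx1 (by
    rw [hcast]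
    push_cast
    exact hexp)
  rw [hcast] at ht2
  obtain ⟨w, hw⟩ : ∃ w : ℕ, w = ⌊(1 + x) * D / (2 * (m : ℝ))⌋₊ := ⟨_, rfl⟩
  rw [← hw] at ht2
  have hYw : (1 + x) * D / (2 * (m : ℝ)) = (1 + x) * Y := by rw [hY']; ring
  rw [hYw] at hw
  have hwY : (w : ℝ) ≤ (1 + x) * Y := by rw [hw]; exact Nat.floor_le (by positivity)
  have hYw2 : Y ≤ w + 1 := by
    have h9 : (1 + x) * Y ≤ w + 1 := by rw [hw]; exact (Nat.lt_floor_add_one _).le
    have h10 : 0 < x * Y := by positivity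
    linarith
  obtain ⟨k, hk⟩ : ∃ k : ℕ, k = ⌈(1 + e / 2) * Y / L⌉₊ := ⟨_, rfl⟩
  have hk1 : (1 + e / 2) * Y / L ≤ k := by rw [hk]; exact Nat.le_ceil _
  have hk2 : (k : ℝ) ≤ (1 + e / 2) * Y / L + 1 := by
    rw [hk]; exact (Nat.ceil_lt_add_one (by positivity)).le
  have hYL : 100 ≤ Y / L := by
    rw [le_div_iff₀ hL0]
    have : e * Y ≤ 1 * Y := mul_le_mul_of_nonneg_right he1 hY0.le
    linarith
  have hkYL : Y / L ≤ k := by
    refine le_trans ?_ hk1
    apply div_le_div_of_nonneg_right _ hL0.le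
    have : 0 < e * Y := by positivity
    linarith
  have hk3 : (2 : ℝ) ≤ k := by linarith
  have hkN : 2 ≤ k := by exact_mod_cast hk3
  have hkY : (k : ℝ) ≤ Y := by
    have h9 : (1 + e / 2) * Y / L ≤ Y / 100 := by
      rw [div_le_iff₀ hL0]
      have h10 : Y * 10 ^ 4 ≤ Y * L := mul_le_mul_of_nonneg_left hL4 hY0.le
      have h11 : e * Y ≤ 1 * Y := mul_le_mul_of_nonneg_right he1 hY0.le
      linarith
    have h12 : 100 * L ≤ Y := by
      rw [le_div_iff₀ hL0] at hYL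
      exact hYL
    linarith
  have hYD : Y ≤ D := by
    rw [← hY]
    have : 1 * Y ≤ m * Y := mul_le_mul_of_nonneg_right hm1' hY0.le
    linarith
  have hℓ1 : (1 - η) * L ≤ Real.log k := by
    rw [Real.le_log_iff_exp_le (by linarith)]
    refine le_trans ?_ hkYL
    rw [le_div_iff₀ hL0, hY', le_div_iff₀ (by positivity)]
    have h9 : Real.exp ((1 - η) * L) * Real.exp (η * L) = D := by
      rw [← Real.exp_add, ← hexpL]
      congr 1; ring
    rw [← h9]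
    have h10 : L * (2 * m) ≤ Real.exp (η * L) := by
      have h11 : Real.exp (η / 2 * L) ≤ Real.exp (η * L) := by
        apply Real.exp_le_exp.2
        have : 0 < η * L := by positivity
        linarith
      refine le_trans ?_ (hB2'.trans h11)
      have h12 : L * (2 * m) ≤ L ^ 3 := by
        have h16 : L * (2 * m) ≤ L * (L ^ 2 / 50) :=
          mul_le_mul_of_nonneg_left (by linarith) hL0.le
        have h17 : L * (L ^ 2 / 50) = L ^ 3 / 50 := by ring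
        have h18 : 0 < L ^ 3 := by positivity
        linarith
      have h13 : L ^ 3 ≤ L ^ 6 := pow_le_pow_right₀ (by linarith) (by norm_num)
      have h14 : 1 * L ^ 6 ≤ 10 ^ 4 / e ^ 2 * L ^ 6 := by
        apply mul_le_mul_of_nonneg_right _ (by positivity)
        linarith
      linarith
    have h15 := mul_le_mul_of_nonneg_left h10 (Real.exp_pos ((1 - η) * L)).le
    linarith [h15, show Real.exp ((1 - η) * L) * L * (2 * (m : ℝ)) =
      Real.exp ((1 - η) * L) * (L * (2 * m)) by ring]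
  have hℓ2 : Real.log k ≤ L := by
    rw [hL]
    exact Real.log_le_log (by linarith) (by linarith)
  have hℓ0 : 0 ≤ Real.log k := Real.log_nonneg (by linarith)
  have hA : 4 * ((3 + Real.log k) * Real.log k) ≤ Real.exp (η * Real.log k) := by
    have h9 : Real.exp (η / 2 * L) ≤ Real.exp (η * Real.log k) := by
      apply Real.exp_le_exp.2
      have h10 : η * ((1 - η) * L) ≤ η * Real.log k := mul_le_mul_of_nonneg_left hℓ1 hη0.le
      have h15 : (η * L) * η ≤ (η * L) * (1 / 16) :=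
        mul_le_mul_of_nonneg_left hη1 (by positivity)
      have h16 : 0 < η * L := by positivity
      linarith
    refine le_trans ?_ (hB2'.trans h9)
    have h11 : (3 + Real.log k) * Real.log k ≤ (3 + L) * L := by
      apply mul_le_mul (by linarith) hℓ2 hℓ0 (by linarith)
    have h12 : (3 + L) * L ≤ 2 * L ^ 2 := by
      have : (3 + L) * L ≤ (2 * L) * L := mul_le_mul_of_nonneg_right (by linarith) hL0.le
      linarith
    have h13 : L ^ 2 ≤ L ^ 6 := pow_le_pow_right₀ (by linarith) (by norm_num)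
    have h14 : 8 * L ^ 6 ≤ 10 ^ 4 / e ^ 2 * L ^ 6 := by
      apply mul_le_mul_of_nonneg_right _ (by positivity)
      linarith
    linarith
  have hxe : x ≤ e / 16 := by
    rw [hx, div_le_iff₀ (by positivity)]
    have h9 : 16 * L ≤ e * L * L := mul_le_mul_of_nonneg_right heL hL0.le
    have h10 : e / 16 * L ^ 2 = e * L * L / 16 := by ring
    rw [h10]
    linarith
  have hwk := tf_w (w := w) (k := k) he0 he1 hη hY0 hYe hL0 hxe hwY hk1 hℓ1
  have hcond := tf_cond (η := η) hη0 (by linarith) k w hkN rfl hwk hA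
  obtain ⟨c, hc1, hc2⟩ := tf_colour G htf t w k hkN ht2 hcond
  have hkw : k ≤ w + 1 := by
    have : (k : ℝ) ≤ w + 1 := hkY.trans hYw2
    exact_mod_cast this
  have hDL : 0 < (D : ℝ) / L := by positivity
  have hp2 : (1 / 2 + e) * (D / L) ≤ p := by
    refine le_trans ?_ hp
    exact mul_le_mul_of_nonneg_right (by linarith) hDL.le
  have hH3 := tf_H3 he0 he1 hL4 hm1' h96 heL hem hxD hx1 hY hY0 hwY hk2 hp2
  have hp1 : 1 ≤ p := by
    have : (0 : ℝ) < p := lt_of_lt_of_le (by positivity) hp2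
    exact_mod_cast this
  refine structB G m 0 w k p D (by omega) hp1 t ht1 ht2 c hc1 hc2 hkw ?_ ?_ ?_ ?_
  · have h9 : ((m : ℝ) - 1 - 0) * k ≤ ((m : ℝ) - 1 - 2 * 0) * (w + 1) := by
      have : (k : ℝ) ≤ w + 1 := by exact_mod_cast hkw
      have := mul_le_mul_of_nonneg_left this (by linarith : (0 : ℝ) ≤ (m : ℝ) - 1)
      linarith
    exact_mod_cast h9
  · have h9 := tf_H2 he1 hL4 hm1' hm3 h96 hxD hY hY0 hwY hYw2 hk2
    exact_mod_cast h9
  · exact_mod_cast hH3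
  · have h9 : (2 * (0 : ℝ) + 1) * (w + 1) ≤ p - 1 + (0 + 1) * k := by
      -- w + 1 ≤ 2 Y + 1 and 2 Y ≤ D / (8 L)
      have h10 : (1 + x) * Y ≤ 2 * Y := mul_le_mul_of_nonneg_right (by linarith) hY0.le
      have h11 : 2 * Y ≤ D / L / 8 := by
        rw [le_div_iff₀ (by norm_num), le_div_iff₀ hL0, ← hY]
        have h14 : e * m ≤ 1 * m := mul_le_mul_of_nonneg_right he1 hm0.le
        have h15 : Y * (8 * L) ≤ Y * m := mul_le_mul_of_nonneg_left (by linarith) hY0.le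
        linarith
      have h12 : 1 / 2 * ((D : ℝ) / L) ≤ p := by
        refine le_trans ?_ hp2
        exact mul_le_mul_of_nonneg_right (by linarith) hDL.le
      have h13 : 100 ≤ Y := by linarith
      linarith
    exact_mod_cast h9

end Pool.Agent.TH104.HY
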